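import Pool.Agent.H845.Voj.Sum

set_option autoImplicit false

namespace Pool.Agent.H845.Voj

open Module

variable {ι : Type} [Fintype ι] [DecidableEq ι]

theorem hgt_finset (n : ℕ) (S : Finset ℚ) (hS : ∀ x ∈ S, hgt x ≤ n) :
    S.card ≤ (2 * n + 1) * n := by
  have h1 : S.card ≤ (Finset.Icc (-(n : ℤ)) n ×ˢ Finset.Icc (1 : ℕ) n).card := by
    apply Finset.card_le_card_of_injOn (fun x => (x.num, x.den))
    · intro x hx
      have h2 := hS x hx
      have h3 : x.num.natAbs ≤ n := (le_max_left _ _).trans h2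
      have h4 : x.den ≤ n := (le_max_right _ _).trans h2
      have h5 : 1 ≤ x.den := Nat.one_le_iff_ne_zero.2 x.den_ne_zero
      simp only [Finset.coe_product, Finset.coe_Icc, Set.mem_prod, Set.mem_Icc]
      refine ⟨⟨?_, ?_⟩, h5, h4⟩ <;> omega
    · intro x _ y _ hxy
      simp only [Prod.mk.injEq] at hxy
      exact Rat.ext hxy.1 hxy.2
  rw [Finset.card_product, Int.card_Icc, Nat.card_Icc] at h1
  have h2 : ((n : ℤ) + 1 - -(n : ℤ)).toNat = 2 * n + 1 := by omega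
  rw [h2] at h1
  simpa using h1

theorem fin_hgt (n : ℕ) : {x : ℚ | hgt x ≤ n}.Finite := by
  have h1 : (fun x : ℚ => (x.num, x.den)) '' {x : ℚ | hgt x ≤ n} ⊆
      ((Finset.Icc (-(n : ℤ)) n ×ˢ Finset.Icc (1 : ℕ) n : Finset (ℤ × ℕ)) : Set (ℤ × ℕ)) := by
    rintro _ ⟨x, hx, rfl⟩
    have h2 : hgt x ≤ n := hx
    have h3 : x.num.natAbs ≤ n := (le_max_left _ _).trans h2
    have h4 : x.den ≤ n := (le_max_right _ _).trans h2
    have h5 : 1 ≤ x.den := Nat.one_le_iff_ne_zero.2 x.den_ne_zero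
    simp only [Finset.coe_product, Finset.coe_Icc, Set.mem_prod, Set.mem_Icc]
    refine ⟨⟨?_, ?_⟩, h5, h4⟩ <;> omega
  have h2 : ((fun x : ℚ => (x.num, x.den)) '' {x : ℚ | hgt x ≤ n}).Finite :=
    (Finset.finite_toSet _).subset h1
  refine Set.Finite.of_finite_image h2 ?_
  intro x _ y _ hxy
  simp only [Prod.mk.injEq] at hxy
  exact Rat.ext hxy.1 hxy.2

omit [Fintype ι] [DecidableEq ι] in
theorem L_le {u v : ι → ℤ} {A : ℕ} (hu : ∀ j, (u j).natAbs ≤ A) (hv : ∀ j, (v j).natAbs ≤ A)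
    (x : ℚ) (j : ι) : (L u v j x.num x.den).natAbs ≤ 2 * A * hgt x := by
  unfold L
  have h1 : x.num.natAbs ≤ hgt x := le_max_left _ _
  have h2 : x.den ≤ hgt x := le_max_right _ _
  calc (u j * x.num + v j * x.den).natAbs ≤ (u j * x.num).natAbs + (v j * (x.den : ℤ)).natAbs :=
        Int.natAbs_add_le _ _
    _ = (u j).natAbs * x.num.natAbs + (v j).natAbs * x.den := by
        rw [Int.natAbs_mul, Int.natAbs_mul, Int.natAbs_natCast]
    _ ≤ A * hgt x + A * hgt x := Nat.add_le_add (Nat.mul_le_mul (hu j) h1)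
        (Nat.mul_le_mul (hv j) h2)
    _ = 2 * A * hgt x := by ring

omit [Fintype ι] [DecidableEq ι] in
/-- at most one form is small -/
theorem H_le {u v : ι → ℤ} {A : ℕ} (hu : ∀ j, (u j).natAbs ≤ A) (hv : ∀ j, (v j).natAbs ≤ A)
    (x : ℚ) (i j : ι) (hij : det u v i j ≠ 0) (hi : 2 * A * (L u v i x.num x.den).natAbs < hgt x) :
    hgt x ≤ 2 * A * (L u v j x.num x.den).natAbs := by
  by_contra hj
  push Not at hj
  have hd : 1 ≤ (det u v i j).natAbs := Int.natAbs_pos.2 hij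
  set p := (L u v i x.num x.den).natAbs with hp
  set q := (L u v j x.num x.den).natAbs with hq
  have h1 : x.num.natAbs ≤ A * p + A * q := by
    have h2 : det u v i j * x.num = v j * L u v i x.num x.den - v i * L u v j x.num x.den := by
      unfold det L; ring
    have h3 : (det u v i j * x.num).natAbs ≤ (v j).natAbs * p + (v i).natAbs * q := by
      rw [h2, hp, hq, ← Int.natAbs_mul, ← Int.natAbs_mul]
      exact Int.natAbs_sub_le _ _
    rw [Int.natAbs_mul] at h3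
    calc x.num.natAbs ≤ (det u v i j).natAbs * x.num.natAbs := Nat.le_mul_of_pos_left _ hd
      _ ≤ _ := h3
      _ ≤ A * p + A * q := Nat.add_le_add (Nat.mul_le_mul_right _ (hv j))
          (Nat.mul_le_mul_right _ (hv i))
  have h2 : x.den ≤ A * p + A * q := by
    have h2 : det u v i j * (x.den : ℤ) = u i * L u v j x.num x.den - u j * L u v i x.num x.den := by
      unfold det L; ring
    have h3 : (det u v i j * (x.den : ℤ)).natAbs ≤ (u i).natAbs * q + (u j).natAbs * p := by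
      rw [h2, hp, hq, ← Int.natAbs_mul, ← Int.natAbs_mul]
      exact Int.natAbs_sub_le _ _
    rw [Int.natAbs_mul, Int.natAbs_natCast] at h3
    calc x.den ≤ (det u v i j).natAbs * x.den := Nat.le_mul_of_pos_left _ hd
      _ ≤ _ := h3
      _ ≤ A * q + A * p := Nat.add_le_add (Nat.mul_le_mul_right _ (hu i))
          (Nat.mul_le_mul_right _ (hu j))
      _ = A * p + A * q := by ring
  have h3 : hgt x ≤ A * p + A * q := max_le h1 h2
  nlinarith

theorem exc_tuple (g : ℕ) (hN : Fintype.card ι = 2 * g + 2) {D0 : ℤ} {u v : ι → ℤ}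
    (hD : D0 ≠ 0) (hdet : ∀ i j, i ≠ j → det u v i j ≠ 0) {A : ℕ} (hA : 1 ≤ A)
    (hu : ∀ j, (u j).natAbs ≤ A) (hv : ∀ j, (v j).natAbs ≤ A) (x : ℚ) (q ρ : ℚ) (hρ : ρ ≠ 0)
    (hL : ∀ j, L u v j x.num x.den ≠ 0)
    (hq : q = ρ ^ 2 * ((D0 * ∏ j, L u v j x.num x.den : ℤ) : ℚ)) (B : ℝ) (hB : 1 ≤ B)
    (hxB : (hgt x : ℝ) ≤ B) (hBx : B ^ (5 / 8 : ℝ) ≤ hgt x)
    (hexc : logDisc (SqrtField q) < ((g : ℝ) - 7 / 10) * Real.log (hgt x))
    (c W1 W2 : ℝ) (hc : c = 1 / Real.sqrt ((2 * A) ^ (2 * g + 1) * (RR D0 u v : ℝ) ^ (2 * g + 2)))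
    (hW1 : W1 = max 1 (c * B ^ (3 / 4 : ℝ))) (hW2 : W2 = W1 * Real.sqrt (2 * A * B)) :
    ∃ m ∈ MM ι ⌊W2⌋₊ W1 W2, (∀ j, m j ≠ 0) ∧
      ∀ j, ((m j ^ 2 : ℕ) : ℤ) ∣ L u v j x.num x.den := by
  set H : ℝ := ((hgt x : ℕ) : ℝ) with hH
  have hH1 : 1 ≤ H := by rw [hH]; exact_mod_cast hgt_pos x
  have hH0 : 0 < H := by linarith
  have hA' : (1 : ℝ) ≤ A := by exact_mod_cast hA
  have hR0 : (0 : ℝ) < RR D0 u v := by
    exact_mod_cast Nat.pos_of_ne_zero (RR_ne hD hdet)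
  have hex : ∀ j, ∃ s m : ℕ, m ^ 2 * s = (L u v j x.num x.den).natAbs ∧ Squarefree s := fun j =>
    Nat.sq_mul_squarefree _
  choose s m0 hm0 hs using hex
  have hs0 : ∀ j, s j ≠ 0 := fun j => (hs j).ne_zero
  have hm1 : ∀ j, m0 j ≠ 0 := by
    intro j h
    apply hL j
    rw [← Int.natAbs_eq_zero, ← hm0 j, h]
    simp
  have h1 := key_s hD hdet (cop x) hL q ρ hρ hq s m0 hs (fun j => (hm0 j).symm)
  rw [hN] at h1
  have h2 : Real.exp (2 * logDisc (SqrtField q)) ≤ H ^ (2 * ((g : ℝ) - 7 / 10)) := by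
    rw [Real.rpow_def_of_pos hH0]
    apply Real.exp_le_exp.2
    linarith
  have h3 : ((∏ j, s j : ℕ) : ℝ) ≤ (RR D0 u v : ℝ) ^ (2 * g + 2) * H ^ (2 * ((g : ℝ) - 7 / 10)) :=
    h1.trans (mul_le_mul_of_nonneg_left h2 (by positivity))
  -- the exceptional index
  obtain ⟨j0, hj0⟩ : ∃ j0 : ι, ∀ j, j ≠ j0 → hgt x ≤ 2 * A * (L u v j x.num x.den).natAbs := by
    by_cases h : ∃ j0, 2 * A * (L u v j0 x.num x.den).natAbs < hgt x
    · obtain ⟨j0, hj0⟩ := h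
      exact ⟨j0, fun j hj => H_le hu hv x j0 j (hdet j0 j (Ne.symm hj)) hj0⟩
    · push Not at h
      have : Nonempty ι := Fintype.card_pos_iff.1 (by omega)
      exact ⟨Classical.arbitrary ι, fun j _ => h j⟩
  set I := Finset.univ.erase j0 with hI
  have hIc : I.card = 2 * g + 1 := by
    rw [hI, Finset.card_erase_of_mem (Finset.mem_univ _), Finset.card_univ, hN]
    rfl
  have hm1' : ∀ j, (1 : ℝ) ≤ m0 j := fun j => by
    exact_mod_cast Nat.one_le_iff_ne_zero.2 (hm1 j)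
  have hs1' : ∀ j, (1 : ℝ) ≤ s j := fun j => by
    exact_mod_cast Nat.one_le_iff_ne_zero.2 (hs0 j)
  have h4 : ∏ j ∈ I, (s j : ℝ) ≤ ∏ j, (s j : ℝ) := by
    rw [← Finset.mul_prod_erase Finset.univ (fun j => (s j : ℝ)) (Finset.mem_univ j0)]
    have : 0 ≤ ∏ j ∈ I, (s j : ℝ) := Finset.prod_nonneg fun j _ => by linarith [hs1' j]
    rw [← hI]
    nlinarith [hs1' j0]
  have h5 : (H / (2 * A)) ^ (2 * g + 1) ≤ (∏ j ∈ I, (m0 j : ℝ)) ^ 2 * ∏ j ∈ I, (s j : ℝ) := by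
    rw [← Finset.prod_pow, ← Finset.prod_mul_distrib, ← hIc, ← Finset.prod_const]
    apply Finset.prod_le_prod
    · intro j _; positivity
    · intro j hj
      have h6 := hj0 j (Finset.ne_of_mem_erase hj)
      rw [div_le_iff₀ (by positivity)]
      have h7 : (H : ℝ) ≤ ((2 * A * (L u v j x.num x.den).natAbs : ℕ) : ℝ) := by
        rw [hH]; exact_mod_cast h6
      rw [← hm0 j] at h7
      push_cast at h7
      linarith
  have h6 : (H / (2 * A)) ^ (2 * g + 1) ≤ (∏ j ∈ I, (m0 j : ℝ)) ^ 2 *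
      ((RR D0 u v : ℝ) ^ (2 * g + 2) * H ^ (2 * ((g : ℝ) - 7 / 10))) := by
    refine h5.trans (mul_le_mul_of_nonneg_left ?_ (sq_nonneg _))
    refine h4.trans ?_
    push_cast at h3
    exact h3
  set K : ℝ := (2 * A) ^ (2 * g + 1) * (RR D0 u v : ℝ) ^ (2 * g + 2) with hK
  have hK0 : 0 < K := by positivity
  have h7 : H ^ (12 / 5 : ℝ) ≤ (∏ j ∈ I, (m0 j : ℝ)) ^ 2 * K := by
    have h8 : H ^ (2 * g + 1) = H ^ (12 / 5 : ℝ) * H ^ (2 * ((g : ℝ) - 7 / 10)) := by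
      rw [← Real.rpow_add hH0, ← Real.rpow_natCast]
      congr 1
      push_cast
      ring
    rw [div_pow, div_le_iff₀ (by positivity), h8] at h6
    have h9 : 0 < H ^ (2 * ((g : ℝ) - 7 / 10)) := Real.rpow_pos_of_pos hH0 _
    have h10 : H ^ (12 / 5 : ℝ) * H ^ (2 * ((g : ℝ) - 7 / 10)) ≤
        ((∏ j ∈ I, (m0 j : ℝ)) ^ 2 * K) * H ^ (2 * ((g : ℝ) - 7 / 10)) := by
      refine h6.trans (le_of_eq ?_)
      rw [hK]; ring
    exact le_of_mul_le_mul_right h10 h9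
  have hc0 : 0 < c := by rw [hc]; positivity
  have hP0 : 0 ≤ ∏ j ∈ I, (m0 j : ℝ) := Finset.prod_nonneg fun j _ => by linarith [hm1' j]
  have h8 : c * H ^ (6 / 5 : ℝ) ≤ ∏ j ∈ I, (m0 j : ℝ) := by
    have h9 : (c * H ^ (6 / 5 : ℝ)) ^ 2 ≤ (∏ j ∈ I, (m0 j : ℝ)) ^ 2 := by
      rw [mul_pow, hc, div_pow, Real.sq_sqrt hK0.le, one_pow, ← Real.rpow_natCast (H ^ (6 / 5 : ℝ)) 2,
        ← Real.rpow_mul hH0.le]
      rw [div_mul_eq_mul_div, one_mul, div_le_iff₀ hK0]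
      have : (6 / 5 : ℝ) * ((2 : ℕ) : ℝ) = 12 / 5 := by norm_num
      rw [this]
      exact h7
    exact (sq_le_sq₀ (by positivity) hP0).1 h9
  have h9 : c * B ^ (3 / 4 : ℝ) ≤ ∏ j ∈ I, (m0 j : ℝ) := by
    refine le_trans (mul_le_mul_of_nonneg_left ?_ hc0.le) h8
    have h10 : (B ^ (5 / 8 : ℝ)) ^ (6 / 5 : ℝ) ≤ H ^ (6 / 5 : ℝ) :=
      Real.rpow_le_rpow (by positivity) hBx (by norm_num)
    rw [← Real.rpow_mul (by linarith)] at h10
    have : (5 / 8 : ℝ) * (6 / 5) = 3 / 4 := by norm_num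
    rwa [this] at h10
  have h10 : 1 ≤ ∏ j ∈ I, (m0 j : ℝ) := by
    calc (1 : ℝ) = ∏ _j ∈ I, (1 : ℝ) := by simp
      _ ≤ _ := Finset.prod_le_prod (fun _ _ => by norm_num) fun j _ => hm1' j
  have hZ1 : 1 ≤ Real.sqrt (2 * A * B) := by
    rw [Real.one_le_sqrt]
    nlinarith
  have hW11 : 1 ≤ W1 := by rw [hW1]; exact le_max_left _ _
  obtain ⟨J, hJI, hJ1, hJ2⟩ := greedy (fun j => (m0 j : ℝ)) I (Real.sqrt (2 * A * B)) W1 (by
    intro j _
    apply Real.le_sqrt_of_sq_le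
    have h11 : m0 j ^ 2 ≤ 2 * A * hgt x := by
      refine le_trans ?_ (L_le hu hv x j)
      rw [← hm0 j]
      exact Nat.le_mul_of_pos_right _ (Nat.pos_of_ne_zero (hs0 j))
    have h12 : ((m0 j : ℝ)) ^ 2 ≤ 2 * A * H := by rw [hH]; exact_mod_cast h11
    refine h12.trans ?_
    exact mul_le_mul_of_nonneg_left hxB (by positivity)) (fun j _ => hm1' j) hZ1 hW11 (by
    rw [hW1]; exact max_le h10 h9)
  set m : ι → ℕ := fun j => if j ∈ J then m0 j else 1 with hm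
  have hmne : ∀ j, m j ≠ 0 := by
    intro j
    rw [hm]
    simp only
    split_ifs
    · exact hm1 j
    · exact one_ne_zero
  have hprod : ∏ j, (m j : ℝ) = ∏ j ∈ J, (m0 j : ℝ) := by
    rw [hm]
    simp only [Nat.cast_ite, Nat.cast_one]
    rw [Finset.prod_ite_mem]
    simp
  have hge1 : ∀ j, (1 : ℝ) ≤ m j := fun j => by
    exact_mod_cast Nat.one_le_iff_ne_zero.2 (hmne j)
  refine ⟨m, ?_, hmne, ?_⟩
  · unfold MM
    rw [Finset.mem_filter, hprod, hW2]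
    refine ⟨?_, hJ1, hJ2⟩
    rw [Fintype.mem_piFinset]
    intro j
    rw [Finset.mem_Icc]
    refine ⟨Nat.one_le_iff_ne_zero.2 (hmne j), ?_⟩
    apply Nat.le_floor
    refine le_trans ?_ hJ2
    rw [← hprod, ← Finset.mul_prod_erase Finset.univ (fun j => (m j : ℝ)) (Finset.mem_univ j)]
    have h11 : (1 : ℝ) ≤ ∏ i ∈ Finset.univ.erase j, (m i : ℝ) := by
      calc (1 : ℝ) = ∏ _j ∈ Finset.univ.erase j, (1 : ℝ) := by simp
        _ ≤ _ := Finset.prod_le_prod (fun _ _ => by norm_num) fun i _ => hge1 i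
    nlinarith [hge1 j]
  · intro j
    rw [hm]
    simp only
    split_ifs
    · rw [Int.natCast_dvd, ← hm0 j]
      exact Dvd.intro _ rfl
    · simp

end Pool.Agent.H845.Voj
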