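import Mathlib

set_option autoImplicit false

namespace Pool.Agent.H845.Voj

open NumberField Module

theorem sq_ne {s : ℤ} (hns : ¬ IsSquare s) (q : ℚ) : q ^ 2 ≠ s := by
  intro h
  have h1 : IsSquare (s : ℚ) := ⟨q, by rw [← h, sq]⟩
  rw [Rat.isSquare_intCast_iff] at h1
  exact hns h1

variable {K : Type} [Field K] [NumberField K]

theorem exists_basis {s : ℤ} (hns : ¬ IsSquare s) (h2 : finrank ℚ K = 2) (x : K)
    (hx : x ^ 2 = s) : ∃ b : Basis (Fin 2) ℚ K, b 0 = 1 ∧ b 1 = x := by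
  have hli : LinearIndependent ℚ ![(1:K), x] := by
    rw [LinearIndependent.pair_iff]
    intro u t hst
    by_cases ht : t = 0
    · subst ht
      simp only [zero_smul, add_zero, smul_eq_zero, one_ne_zero, or_false] at hst
      exact ⟨hst, rfl⟩
    · exfalso
      have htK : (t : K) ≠ 0 := by exact_mod_cast ht
      have h3 : x = ((-u / t : ℚ) : K) := by
        rw [Rat.smul_def, Rat.smul_def, mul_one] at hst
        push_cast
        rw [eq_div_iff htK]
        linear_combination hst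
      rw [h3] at hx
      exact sq_ne hns (-u / t) (by exact_mod_cast hx)
  refine ⟨basisOfLinearIndependentOfCardEqFinrank hli (by simp [h2]), ?_, ?_⟩ <;> simp

section
variable {d : ℤ} {x : K} (hx : x ^ 2 = d) (b : Basis (Fin 2) ℚ K) (h0 : b 0 = 1) (h1 : b 1 = x)
include h0 h1

theorem repr_eq (p q : ℚ) : b.repr ((p:K) + q * x) 0 = p ∧ b.repr ((p:K) + q * x) 1 = q := by
  have h : (p:K) + q * x = p • b 0 + q • b 1 := by
    rw [h0, h1, Rat.smul_def, Rat.smul_def, mul_one]
  rw [h]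
  simp

include hx

theorem mat (p q : ℚ) : Algebra.leftMulMatrix b ((p:K) + q * x) = !![p, d * q; q, p] := by
  have e0 : ((p:K) + q * x) * b 0 = (p:K) + q * x := by rw [h0, mul_one]
  have e1 : ((p:K) + q * x) * b 1 = ((d * q : ℚ) : K) + p * x := by
    rw [h1]
    push_cast
    linear_combination (q:K) * hx
  ext i j
  rw [Algebra.leftMulMatrix_eq_repr_mul]
  fin_cases j
  · simp only [Fin.zero_eta, e0]
    fin_cases i
    · simpa using (repr_eq b h0 h1 p q).1
    · simpa using (repr_eq b h0 h1 p q).2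
  · simp only [Fin.mk_one, e1]
    fin_cases i
    · simpa using (repr_eq b h0 h1 (d * q) p).1
    · simpa using (repr_eq b h0 h1 (d * q) p).2

theorem tr (p q : ℚ) : Algebra.trace ℚ K ((p:K) + q * x) = 2 * p := by
  rw [Algebra.trace_eq_matrix_trace b, mat hx b h0 h1]
  simp [Matrix.trace, Fin.sum_univ_two]
  ring

theorem trZ (α : 𝓞 K) (p q : ℚ) (h : (α : K) = (p:K) + q * x) :
    (Algebra.trace ℤ (𝓞 K) α : ℚ) = 2 * p := by
  rw [Algebra.coe_trace_int, h, tr hx b h0 h1]

end

theorem dvd_two {s m k : ℤ} (hs : Squarefree s) (h : 4 * s = m ^ 2 * k) : m ∣ 2 := by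
  have hg : 0 < Int.gcd m 2 := Int.gcd_pos_of_ne_zero_right _ (by norm_num)
  obtain ⟨g, m', t', hg0, hc, hm, ht⟩ := Int.exists_gcd_one' hg
  have hgz : (g : ℤ) ≠ 0 := by exact_mod_cast hg0.ne'
  have h1 : t' ^ 2 * s = m' ^ 2 * k := by
    have h2 : (g : ℤ) ^ 2 * (t' ^ 2 * s) = (g : ℤ) ^ 2 * (m' ^ 2 * k) := by
      have h3 : (4 : ℤ) = (t' * g) ^ 2 := by rw [← ht]; norm_num
      have h4 : (t' * g) ^ 2 * s = (m' * g) ^ 2 * k := by rw [← h3, ← hm]; exact h
      linear_combination h4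
    exact mul_left_cancel₀ (pow_ne_zero 2 hgz) h2
  have h5 : IsCoprime (m' ^ 2) (t' ^ 2) := by
    apply IsCoprime.pow
    rw [Int.isCoprime_iff_gcd_eq_one]
    exact hc
  have h6 : m' ^ 2 ∣ s := h5.dvd_of_dvd_mul_left (Dvd.intro _ h1.symm)
  have h7 : IsUnit m' := hs m' (by rw [← sq]; exact h6)
  rw [hm, ht]
  exact mul_dvd_mul_right (h7.dvd) _

/-- the discriminant of `ℚ(√s)` is at least `|s|` for squarefree `s` -/
theorem disc_ge {s : ℤ} (hs : Squarefree s) (h2 : finrank ℚ K = 2) (x : K) (hx : x ^ 2 = s) :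
    (s.natAbs : ℤ) ≤ |discr K| := by
  have hd0 : (1 : ℤ) ≤ |discr K| := Int.one_le_abs (discr_ne_zero K)
  by_cases hns : IsSquare s
  · obtain ⟨r, hr⟩ := hns
    have h3 : IsUnit r := hs r (by rw [hr])
    have h4 : s.natAbs = 1 := by
      rw [hr, Int.natAbs_mul, Int.isUnit_iff_natAbs_eq.1 h3]
    rw [h4]
    exact_mod_cast hd0
  · obtain ⟨b, h0, h1⟩ := exists_basis hns h2 x hx
    have hint : IsIntegral ℤ x := by
      refine ⟨Polynomial.X ^ 2 - Polynomial.C s, ?_, ?_⟩
      · exact Polynomial.monic_X_pow_sub_C _ (by norm_num)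
      · rw [Polynomial.eval₂_sub, Polynomial.eval₂_pow, Polynomial.eval₂_X, Polynomial.eval₂_C,
          eq_intCast, hx, sub_self]
    set ζ : 𝓞 K := ⟨x, hint⟩ with hζ
    have hζx : (ζ : K) = ((0:ℚ):K) + ((1:ℚ):K) * x := by
      have h9 : (ζ : K) = x := rfl
      rw [h9]
      simp
    have hfr : finrank ℤ (𝓞 K) = 2 := by rw [RingOfIntegers.rank]; exact h2
    let c := finBasisOfFinrankEq ℤ (𝓞 K) hfr
    have h3 : Algebra.discr ℤ ![(1 : 𝓞 K), ζ] = (c.toMatrix ![(1 : 𝓞 K), ζ]).det ^ 2 *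
        Algebra.discr ℤ c := by
      rw [← Algebra.discr_of_matrix_vecMul]
      congr 1
      exact (Basis.toMatrix_map_vecMul c _).symm
    rw [NumberField.discr_eq_discr K c] at h3
    have h4 : (Algebra.discr ℤ ![(1 : 𝓞 K), ζ] : ℤ) = 4 * s := by
      have h5 : ((Algebra.discr ℤ ![(1 : 𝓞 K), ζ] : ℤ) : ℚ) = 4 * s := by
        rw [Algebra.discr_def, Matrix.det_fin_two]
        simp only [Algebra.traceMatrix_apply, Algebra.traceForm_apply, Matrix.cons_val_zero,
          Matrix.cons_val_one, one_mul, mul_one]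
        push_cast
        rw [trZ hx b h0 h1 ζ 0 1 hζx, trZ hx b h0 h1 1 1 0 (by simp),
          trZ hx b h0 h1 (ζ * ζ) s 0 (by
            have hω' : algebraMap (𝓞 K) K ζ = x := rfl
            rw [RingOfIntegers.coe_eq_algebraMap, map_mul, hω']
            push_cast
            linear_combination hx)]
        ring
      exact_mod_cast h5
    rw [h4] at h3
    have h6 := dvd_two hs h3
    set m := (c.toMatrix ![(1 : 𝓞 K), ζ]).det with hm
    have h7 : |m| ≤ 2 := by
      have := Int.le_of_dvd (by norm_num) ((abs_dvd m 2).2 h6)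
      exact this
    have h8 : |4 * s| = m ^ 2 * |discr K| := by
      rw [h3, abs_mul, abs_of_nonneg (sq_nonneg m)]
    have h9 : m ^ 2 ≤ 4 := by
      rw [← sq_abs]
      nlinarith [abs_nonneg m]
    rw [abs_mul] at h8
    have h10 : |(4:ℤ)| = 4 := by norm_num
    rw [h10] at h8
    have h11 : (s.natAbs : ℤ) = |s| := Int.natCast_natAbs s
    rw [h11]
    nlinarith [abs_nonneg (discr K)]

/-- the subfield of `ℂ` generated over `ℚ` by the square roots of the rational number `q` -/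
noncomputable abbrev SqrtField (q : ℚ) : IntermediateField ℚ ℂ :=
  IntermediateField.adjoin ℚ {y : ℂ | y ^ 2 = (q : ℂ)}

theorem sqrtField_eq (q : ℚ) (y : ℂ) (hy : y ^ 2 = (q : ℂ)) :
    SqrtField q = IntermediateField.adjoin ℚ {y} := by
  apply le_antisymm
  · rw [IntermediateField.adjoin_le_iff]
    intro z hz
    have hz' : z ^ 2 = (q : ℂ) := hz
    have h1 : (z - y) * (z + y) = 0 := by
      have : (z - y) * (z + y) = z ^ 2 - y ^ 2 := by ring
      rw [this, hz', hy, sub_self]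
    have hmem : y ∈ IntermediateField.adjoin ℚ {y} := IntermediateField.mem_adjoin_simple_self ℚ y
    rcases mul_eq_zero.1 h1 with h2 | h2
    · rw [sub_eq_zero.1 h2]; exact hmem
    · rw [eq_neg_of_add_eq_zero_left h2]
      exact neg_mem hmem
  · rw [IntermediateField.adjoin_simple_le_iff]
    exact IntermediateField.subset_adjoin ℚ _ hy

theorem int_of (q : ℚ) (y : ℂ) (hy : y ^ 2 = (q : ℂ)) : IsIntegral ℚ y := by
  refine ⟨Polynomial.X ^ 2 - Polynomial.C q, Polynomial.monic_X_pow_sub_C _ (by norm_num), ?_⟩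
  rw [Polynomial.eval₂_sub, Polynomial.eval₂_pow, Polynomial.eval₂_X, Polynomial.eval₂_C, hy]
  simp

theorem ex_root (q : ℚ) : ∃ y : ℂ, y ^ 2 = (q : ℂ) := by
  exact IsAlgClosed.exists_pow_nat_eq (q : ℂ) (by norm_num)

instance instFD (q : ℚ) : FiniteDimensional ℚ (SqrtField q) := by
  obtain ⟨y, hy⟩ := ex_root q
  rw [sqrtField_eq q y hy]
  exact IntermediateField.adjoin.finiteDimensional (int_of q y hy)

instance instNF (q : ℚ) : NumberField (SqrtField q) where
  to_charZero := inferInstance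
  to_finiteDimensional := instFD q

theorem finrank_le (q : ℚ) : finrank ℚ (SqrtField q) ≤ 2 := by
  obtain ⟨y, hy⟩ := ex_root q
  rw [sqrtField_eq q y hy, IntermediateField.adjoin.finrank (int_of q y hy)]
  have h1 : minpoly ℚ y ∣ Polynomial.X ^ 2 - Polynomial.C q := by
    apply minpoly.dvd
    simp [hy]
  have h2 : (Polynomial.X ^ 2 - Polynomial.C q : Polynomial ℚ) ≠ 0 :=
    (Polynomial.monic_X_pow_sub_C _ (by norm_num)).ne_zero
  have h3 := Polynomial.natDegree_le_of_dvd h1 h2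
  rwa [Polynomial.natDegree_X_pow_sub_C] at h3

/-- `d(K) = log |D_K| / [K : ℚ]` -/
noncomputable def logDisc (K : Type) [Field K] [NumberField K] : ℝ :=
  Real.log |((discr K : ℤ) : ℝ)| / finrank ℚ K

theorem logDisc_ge (q : ℚ) (r : ℚ) (hr : r ≠ 0) (s : ℤ) (hs : Squarefree s) (h : q = r ^ 2 * s) :
    (1 / 2) * Real.log (s.natAbs : ℝ) ≤ logDisc (SqrtField q) := by
  obtain ⟨y, hy⟩ := ex_root q
  have hyK : y ∈ SqrtField q := IntermediateField.subset_adjoin ℚ _ hy
  set Y : SqrtField q := ⟨y, hyK⟩ with hY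
  have hY2 : Y ^ 2 = (q : SqrtField q) := by
    apply Subtype.ext
    have : ((Y ^ 2 : SqrtField q) : ℂ) = y ^ 2 := rfl
    rw [this, hy]
    simp
  have hrK : (r : SqrtField q) ≠ 0 := by exact_mod_cast hr
  have hZ : (Y / r) ^ 2 = (s : SqrtField q) := by
    rw [div_pow, hY2, h]
    push_cast
    field_simp
  have hd1 : (1 : ℝ) ≤ |((discr (SqrtField q) : ℤ) : ℝ)| := by
    have h1 : (1 : ℤ) ≤ |discr (SqrtField q)| := Int.one_le_abs (discr_ne_zero _)
    exact_mod_cast h1
  have hpos : 0 < finrank ℚ (SqrtField q) := finrank_pos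
  have hle := finrank_le q
  unfold logDisc
  rcases (by omega : finrank ℚ (SqrtField q) = 1 ∨ finrank ℚ (SqrtField q) = 2) with h1 | h2
  · obtain ⟨c, hc⟩ : ∃ c : ℚ, (c : SqrtField q) = Y / r := by
      have h3 := (finrank_eq_one_iff_of_nonzero' (1 : SqrtField q) one_ne_zero).1 h1 (Y / r)
      obtain ⟨c, hc⟩ := h3
      refine ⟨c, ?_⟩
      rw [← hc, Rat.smul_def, mul_one]
    have h4 : c ^ 2 = (s : ℚ) := by
      rw [← hc] at hZ
      exact_mod_cast hZ
    have h5 : IsSquare s := by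
      by_contra h6
      exact sq_ne h6 c h4
    obtain ⟨k, hk⟩ := h5
    have h6 : IsUnit k := hs k (by rw [hk])
    have h7 : s.natAbs = 1 := by
      rw [hk, Int.natAbs_mul, Int.isUnit_iff_natAbs_eq.1 h6]
    rw [h7, h1]
    simp only [Nat.cast_one, Real.log_one, mul_zero, div_one]
    exact Real.log_nonneg hd1
  · have h3 := disc_ge hs h2 (Y / r) hZ
    have h4 : (s.natAbs : ℝ) ≤ |((discr (SqrtField q) : ℤ) : ℝ)| := by
      have h8 : (((s.natAbs : ℕ) : ℤ) : ℝ) ≤ ((|discr (SqrtField q)| : ℤ) : ℝ) :=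
        Int.cast_le.2 h3
      rw [Int.cast_natCast, Int.cast_abs] at h8
      exact h8
    have h5 : (0 : ℝ) < s.natAbs := by
      have : s ≠ 0 := hs.ne_zero
      exact_mod_cast Int.natAbs_pos.2 this
    have h6 := Real.log_le_log h5 h4
    rw [h2]
    push_cast
    linarith

end Pool.Agent.H845.Voj
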