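import Pool.Agent.H845.Voj.Disc

set_option autoImplicit false

namespace Pool.Agent.H845.Voj

open Module

variable {ι : Type} [Fintype ι] [DecidableEq ι]

theorem w_bound (D0 R w : ℕ) (hD0 : D0 ≠ 0) (hR : R ≠ 0) (s : ι → ℕ)
    (hs : ∀ j, Squarefree (s j)) (hD : D0 ∣ R)
    (hp : ∀ i j, i ≠ j → ∀ p : ℕ, p.Prime → p ∣ s i → p ∣ s j → p ∣ R)
    (hw : w ^ 2 ∣ D0 * ∏ j, s j) : w ^ 2 ≤ D0 * R ^ (Fintype.card ι) := by
  have hs0 : ∀ j, s j ≠ 0 := fun j => (hs j).ne_zero
  have hP0 : ∏ j, s j ≠ 0 := Finset.prod_ne_zero_iff.2 fun j _ => hs0 j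
  have hN0 : D0 * ∏ j, s j ≠ 0 := mul_ne_zero hD0 hP0
  have hw0 : w ^ 2 ≠ 0 := ne_zero_of_dvd_ne_zero hN0 hw
  have hw1 : w ≠ 0 := fun h => hw0 (by rw [h]; norm_num)
  have hM0 : D0 * R ^ (Fintype.card ι) ≠ 0 := mul_ne_zero hD0 (pow_ne_zero _ hR)
  have hfp : ∀ p : ℕ, (∏ j, s j).factorization p = ∑ j, (s j).factorization p := by
    intro p
    rw [Nat.factorization_prod fun j _ => hs0 j]
    simp
  have hle : ∀ p : ℕ, (w ^ 2).factorization p ≤
      D0.factorization p + ∑ j, (s j).factorization p := by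
    intro p
    have h1 := (Nat.factorization_le_iff_dvd hw0 hN0).2 hw p
    rw [Nat.factorization_mul hD0 hP0] at h1
    simpa [hfp] using h1
  have hs1 : ∀ j p, (s j).factorization p ≤ 1 := fun j p =>
    (Nat.squarefree_iff_factorization_le_one (hs0 j)).1 (hs j) p
  -- primes dividing w divide R
  have hpR : ∀ p : ℕ, p.Prime → p ∣ w → p ∣ R := by
    intro p hpp hpw
    by_contra hpR
    have h1 : D0.factorization p = 0 :=
      Nat.factorization_eq_zero_of_not_dvd fun h => hpR (h.trans hD)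
    have h2 : 2 ≤ (w ^ 2).factorization p := by
      have h3 : 1 ≤ w.factorization p := (hpp.dvd_iff_one_le_factorization hw1).1 hpw
      rw [Nat.factorization_pow]
      simp only [Finsupp.coe_smul, Pi.smul_apply, smul_eq_mul]
      omega
    have h3 : ∑ j, (s j).factorization p ≤ 1 := by
      by_cases hex : ∃ j0, p ∣ s j0
      · obtain ⟨j0, hj0⟩ := hex
        rw [Finset.sum_eq_single j0]
        · exact hs1 j0 p
        · intro j _ hj
          apply Nat.factorization_eq_zero_of_not_dvd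
          intro h
          exact hpR (hp j j0 hj p hpp h hj0)
        · intro h
          exact absurd (Finset.mem_univ j0) h
      · have h4 : ∑ j, (s j).factorization p = 0 := by
          apply Finset.sum_eq_zero
          intro j _
          exact Nat.factorization_eq_zero_of_not_dvd fun h => hex ⟨j, h⟩
        omega
    have h4 := hle p
    omega
  apply Nat.le_of_dvd (Nat.pos_of_ne_zero hM0)
  rw [← Nat.factorization_le_iff_dvd hw0 hM0]
  intro p
  by_cases hpp : p.Prime
  · by_cases hpw : p ∣ w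
    · have h1 := hpR p hpp hpw
      have h2 : 1 ≤ R.factorization p := (hpp.dvd_iff_one_le_factorization hR).1 h1
      have h3 : ∑ j, (s j).factorization p ≤ Fintype.card ι := by
        calc ∑ j, (s j).factorization p ≤ ∑ _j : ι, 1 := Finset.sum_le_sum fun j _ => hs1 j p
          _ = Fintype.card ι := by simp
      have hR' : (R ^ (Fintype.card ι)).factorization p =
          Fintype.card ι * R.factorization p := by
        rw [Nat.factorization_pow]; simp
      rw [Nat.factorization_mul hD0 (pow_ne_zero _ hR), Finsupp.add_apply, hR']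
      have h4 := hle p
      have h5 : Fintype.card ι ≤ Fintype.card ι * R.factorization p :=
        Nat.le_mul_of_pos_right _ h2
      omega
    · rw [Nat.factorization_eq_zero_of_not_dvd fun h => hpw (hpp.dvd_of_dvd_pow h)]
      exact Nat.zero_le _
  · rw [Nat.factorization_eq_zero_of_not_prime _ hpp]
    exact Nat.zero_le _

/-- the linear form -/
def L (u v : ι → ℤ) (j : ι) (a b : ℤ) : ℤ := u j * a + v j * b

/-- the determinants -/
def det (u v : ι → ℤ) (i j : ι) : ℤ := u i * v j - u j * v i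

/-- the constant -/
def RR (D0 : ℤ) (u v : ι → ℤ) : ℕ :=
  D0.natAbs * ∏ i, ∏ j, (if i = j then 1 else (det u v i j).natAbs)

theorem RR_ne {D0 : ℤ} {u v : ι → ℤ} (hD : D0 ≠ 0) (hdet : ∀ i j, i ≠ j → det u v i j ≠ 0) :
    RR D0 u v ≠ 0 := by
  unfold RR
  refine mul_ne_zero (Int.natAbs_ne_zero.2 hD) ?_
  refine Finset.prod_ne_zero_iff.2 fun i _ => Finset.prod_ne_zero_iff.2 fun j _ => ?_
  split_ifs with h
  · exact one_ne_zero
  · exact Int.natAbs_ne_zero.2 (hdet i j h)

theorem det_dvd_RR (D0 : ℤ) (u v : ι → ℤ) (i j : ι) (h : i ≠ j) :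
    (det u v i j).natAbs ∣ RR D0 u v := by
  unfold RR
  refine Dvd.dvd.mul_left ?_ _
  have h1 : (det u v i j).natAbs = (if i = j then 1 else (det u v i j).natAbs) := by
    rw [if_neg h]
  rw [h1]
  exact (Finset.dvd_prod_of_mem (fun j => if i = j then 1 else (det u v i j).natAbs)
    (Finset.mem_univ j)).trans (Finset.dvd_prod_of_mem
    (fun i => ∏ j, (if i = j then 1 else (det u v i j).natAbs)) (Finset.mem_univ i))

omit [Fintype ι] [DecidableEq ι] in
theorem dvd_det {u v : ι → ℤ} {a b : ℤ} (hab : IsCoprime a b) {i j : ι} {d : ℤ}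
    (hi : d ∣ L u v i a b) (hj : d ∣ L u v j a b) : d ∣ det u v i j := by
  have h1 : d ∣ det u v i j * a := by
    have : det u v i j * a = v j * L u v i a b - v i * L u v j a b := by
      unfold det L; ring
    rw [this]
    exact dvd_sub (hi.mul_left _) (hj.mul_left _)
  have h2 : d ∣ det u v i j * b := by
    have : det u v i j * b = u i * L u v j a b - u j * L u v i a b := by
      unfold det L; ring
    rw [this]
    exact dvd_sub (hj.mul_left _) (hi.mul_left _)
  obtain ⟨x, y, hxy⟩ := hab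
  have h3 : det u v i j = (det u v i j * a) * x + (det u v i j * b) * y := by
    have : det u v i j * (x * a + y * b) = det u v i j := by rw [hxy, mul_one]
    linear_combination -this
  rw [h3]
  exact dvd_add (h1.mul_right _) (h2.mul_right _)

theorem key_s {D0 : ℤ} {u v : ι → ℤ} (hD : D0 ≠ 0) (hdet : ∀ i j, i ≠ j → det u v i j ≠ 0)
    {a b : ℤ} (hab : IsCoprime a b) (hL : ∀ j, L u v j a b ≠ 0) (q ρ : ℚ) (hρ : ρ ≠ 0)
    (hq : q = ρ ^ 2 * ((D0 * ∏ j, L u v j a b : ℤ) : ℚ)) (s m : ι → ℕ)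
    (hs : ∀ j, Squarefree (s j)) (hm : ∀ j, (L u v j a b).natAbs = m j ^ 2 * s j) :
    ((∏ j, s j : ℕ) : ℝ) ≤ (RR D0 u v : ℝ) ^ (Fintype.card ι) *
      Real.exp (2 * logDisc (SqrtField q)) := by
  have hs0 : ∀ j, s j ≠ 0 := fun j => (hs j).ne_zero
  have hm0 : ∀ j, m j ≠ 0 := by
    intro j h
    apply hL j
    rw [← Int.natAbs_eq_zero, hm j, h]
    simp
  set E : ℤ := D0 * ∏ j, ((L u v j a b).sign * (s j : ℤ)) with hE
  have hEabs : E.natAbs = D0.natAbs * ∏ j, s j := by
    rw [hE, Int.natAbs_mul]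
    congr 1
    have h1 : ∀ t : Finset ι, (∏ j ∈ t, ((L u v j a b).sign * (s j : ℤ))).natAbs =
        ∏ j ∈ t, s j := by
      intro t
      induction t using Finset.induction_on with
      | empty => simp
      | insert x t hx ih =>
        rw [Finset.prod_insert hx, Finset.prod_insert hx, Int.natAbs_mul, ih, Int.natAbs_mul,
          Int.natAbs_sign_of_ne_zero (hL x), one_mul, Int.natAbs_natCast]
    exact h1 _
  have hE0 : E ≠ 0 := by
    rw [← Int.natAbs_ne_zero, hEabs]
    exact mul_ne_zero (Int.natAbs_ne_zero.2 hD) (Finset.prod_ne_zero_iff.2 fun j _ => hs0 j)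
  have hprod : D0 * ∏ j, L u v j a b = E * ((∏ j, m j : ℕ) : ℤ) ^ 2 := by
    rw [hE, mul_assoc]
    congr 1
    push_cast
    rw [← Finset.prod_pow, ← Finset.prod_mul_distrib]
    apply Finset.prod_congr rfl
    intro j _
    have h1 : L u v j a b = (L u v j a b).sign * ((L u v j a b).natAbs : ℤ) :=
      (Int.sign_mul_natAbs _).symm
    conv_lhs => rw [h1, hm j]
    push_cast
    ring
  obtain ⟨e', w, hw, he'⟩ := Nat.sq_mul_squarefree E.natAbs
  set e : ℤ := E.sign * (e' : ℤ) with he
  have hEe : E = e * (w : ℤ) ^ 2 := by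
    have h1 : E = E.sign * (E.natAbs : ℤ) := (Int.sign_mul_natAbs _).symm
    rw [he]
    conv_lhs => rw [h1, ← hw]
    push_cast
    ring
  have heabs : e.natAbs = e' := by
    rw [he, Int.natAbs_mul, Int.natAbs_sign_of_ne_zero hE0, one_mul, Int.natAbs_natCast]
  have hesq : Squarefree e := by
    rw [← Int.squarefree_natAbs, heabs]
    exact he'
  have hw0 : w ≠ 0 := by
    rintro rfl
    apply hE0
    rw [hEe]; simp
  have hM0 : (∏ j, m j) ≠ 0 := Finset.prod_ne_zero_iff.2 fun j _ => hm0 j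
  have h1 := logDisc_ge q (ρ * ((∏ j, m j : ℕ) : ℚ) * (w : ℚ)) (by
    refine mul_ne_zero (mul_ne_zero hρ ?_) ?_
    · exact_mod_cast hM0
    · exact_mod_cast hw0) e hesq (by
    rw [hq, hprod, hEe]
    push_cast
    ring)
  rw [heabs] at h1
  have he0 : (0 : ℝ) < e' := by
    have : e' ≠ 0 := he'.ne_zero
    exact_mod_cast Nat.pos_of_ne_zero this
  have h2 : (e' : ℝ) ≤ Real.exp (2 * logDisc (SqrtField q)) := by
    rw [← Real.log_le_iff_le_exp he0]
    linarith
  have h3 : w ^ 2 ≤ D0.natAbs * (RR D0 u v) ^ (Fintype.card ι) := by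
    apply w_bound D0.natAbs (RR D0 u v) w (Int.natAbs_ne_zero.2 hD) (RR_ne hD hdet) s hs
    · exact Dvd.intro _ rfl
    · intro i j hij p _ hpi hpj
      have h4 : (p : ℤ) ∣ det u v i j := by
        apply dvd_det hab
        · rw [Int.natCast_dvd, hm i]
          exact hpi.mul_left _
        · rw [Int.natCast_dvd, hm j]
          exact hpj.mul_left _
      exact (Int.natCast_dvd.1 h4).trans (det_dvd_RR D0 u v i j hij)
    · rw [← hEabs, ← hw]
      exact Dvd.intro _ rfl
  have h5 : D0.natAbs * ∏ j, s j = w ^ 2 * e' := by rw [← hEabs, hw]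
  have h6 : ∏ j, s j ≤ (RR D0 u v) ^ (Fintype.card ι) * e' := by
    have h7 : D0.natAbs * ∏ j, s j ≤ D0.natAbs * ((RR D0 u v) ^ (Fintype.card ι) * e') := by
      rw [h5, ← mul_assoc]
      exact Nat.mul_le_mul_right _ h3
    exact Nat.le_of_mul_le_mul_left h7 (Int.natAbs_pos.2 hD)
  calc ((∏ j, s j : ℕ) : ℝ) ≤ (((RR D0 u v) ^ (Fintype.card ι) * e' : ℕ) : ℝ) := by
        exact_mod_cast h6
    _ = (RR D0 u v : ℝ) ^ (Fintype.card ι) * e' := by push_cast; ring
    _ ≤ _ := by
        apply mul_le_mul_of_nonneg_left h2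
        positivity

end Pool.Agent.H845.Voj
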