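import Pool.Agent.H845.Voj.Form

set_option autoImplicit false

namespace Pool.Agent.H845.Voj

open Module

theorem gap_real (T : Finset ℝ) (δ : ℝ) (hδ : 0 < δ) (hT : ∀ t ∈ T, -1 ≤ t ∧ t ≤ 1)
    (hgap : ∀ s ∈ T, ∀ t ∈ T, s ≠ t → δ ≤ |s - t|) : (T.card : ℝ) ≤ 2 / δ + 1 := by
  have h0 : ∀ t ∈ T, 0 ≤ (t + 1) / δ := fun t ht => div_nonneg (by linarith [(hT t ht).1]) hδ.le
  have h1 : T.card ≤ (Finset.range (⌊2 / δ⌋₊ + 1)).card := by
    apply Finset.card_le_card_of_injOn (fun t => ⌊(t + 1) / δ⌋₊)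
    · intro t ht
      have ht' : t ∈ T := ht
      simp only [Finset.coe_range, Set.mem_Iio]
      have h2 : (t + 1) / δ ≤ 2 / δ := by
        apply div_le_div_of_nonneg_right _ hδ.le
        linarith [(hT t ht').2]
      exact Nat.lt_succ_of_le (Nat.floor_le_floor h2)
    · intro s hs t ht hst
      have hs' : s ∈ T := hs
      have ht' : t ∈ T := ht
      simp only at hst
      by_contra hne
      have h2 := hgap s hs' t ht' hne
      have h3 := Nat.floor_le (h0 s hs')
      have h4 := Nat.lt_floor_add_one ((s + 1) / δ)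
      have h5 := Nat.floor_le (h0 t ht')
      have h6 := Nat.lt_floor_add_one ((t + 1) / δ)
      rw [hst] at h3 h4
      have h7 : |(s + 1) / δ - (t + 1) / δ| < 1 := by
        rw [abs_lt]
        constructor <;> linarith
      have h8 : (s + 1) / δ - (t + 1) / δ = (s - t) / δ := by ring
      rw [h8, abs_div, abs_of_pos hδ, div_lt_one hδ] at h7
      linarith
  rw [Finset.card_range] at h1
  calc (T.card : ℝ) ≤ ((⌊2 / δ⌋₊ + 1 : ℕ) : ℝ) := by exact_mod_cast h1
    _ = (⌊2 / δ⌋₊ : ℝ) + 1 := by push_cast; ring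
    _ ≤ 2 / δ + 1 := by
        have := Nat.floor_le (show (0 : ℝ) ≤ 2 / δ by positivity)
        linarith

/-- the determinant of two points -/
def dt (x y : ℚ) : ℤ := x.num * y.den - y.num * x.den

theorem card_slopes (S : Finset ℚ) (B D : ℝ) (hB : 0 < B) (hD : 0 < D)
    (hH : ∀ x ∈ S, (x.num.natAbs : ℝ) ≤ B ∧ (x.den : ℝ) ≤ B)
    (hdet : ∀ x ∈ S, ∀ y ∈ S, x ≠ y → D ≤ ((dt x y).natAbs : ℝ)) :
    (S.card : ℝ) ≤ 4 * B ^ 2 / D + 2 := by
  classical
  have hδ : 0 < D / B ^ 2 := by positivity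
  have hB2 : 2 / (D / B ^ 2) = 2 * B ^ 2 / D := by field_simp
  -- first part
  have key : ∀ (S' : Finset ℚ) (φ ψ : ℚ → ℝ), S' ⊆ S → (∀ x ∈ S', 0 < |ψ x|) →
      (∀ x ∈ S', |φ x| ≤ |ψ x|) → (∀ x ∈ S', |ψ x| ≤ B) →
      (∀ x ∈ S', ∀ y ∈ S', |φ x * ψ y - φ y * ψ x| = ((dt x y).natAbs : ℝ)) →
      (S'.card : ℝ) ≤ 2 * B ^ 2 / D + 1 := by
    intro S' φ ψ hS hψ hφψ hψB hdt
    have hψ0 : ∀ x ∈ S', ψ x ≠ 0 := fun x hx => abs_pos.1 (hψ x hx)
    have hdist : ∀ x ∈ S', ∀ y ∈ S', x ≠ y → D / B ^ 2 ≤ |φ x / ψ x - φ y / ψ y| := by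
      intro x hx y hy hxy
      have h1 : φ x / ψ x - φ y / ψ y = (φ x * ψ y - φ y * ψ x) / (ψ x * ψ y) := by
        have h2 := hψ0 x hx
        have h3 := hψ0 y hy
        field_simp
      rw [h1, abs_div, hdt x hx y hy, abs_mul]
      apply div_le_div₀ (by positivity) (hdet x (hS hx) y (hS hy) hxy)
      · exact mul_pos (hψ x hx) (hψ y hy)
      · rw [sq]
        exact mul_le_mul (hψB x hx) (hψB y hy) (abs_nonneg _) hB.le
    have hinj : Set.InjOn (fun x => φ x / ψ x) (S' : Set ℚ) := by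
      intro x hx y hy hxy
      by_contra hne
      have h1 := hdist x hx y hy hne
      simp only at hxy
      rw [hxy, sub_self, abs_zero] at h1
      linarith
    have h2 := gap_real (S'.image fun x => φ x / ψ x) (D / B ^ 2) hδ (by
      intro t ht
      obtain ⟨x, hx, rfl⟩ := Finset.mem_image.1 ht
      have h3 : |φ x / ψ x| ≤ 1 := by
        rw [abs_div, div_le_one (hψ x hx)]
        exact hφψ x hx
      exact abs_le.1 h3) (by
      intro s hs t ht hst
      obtain ⟨x, hx, rfl⟩ := Finset.mem_image.1 hs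
      obtain ⟨y, hy, rfl⟩ := Finset.mem_image.1 ht
      exact hdist x hx y hy (fun h => hst (by rw [h])))
    rw [Finset.card_image_of_injOn hinj, hB2] at h2
    exact h2
  have h1 := key (S.filter fun x => x.num.natAbs ≤ x.den) (fun x => x.num) (fun x => x.den)
    (Finset.filter_subset _ _) (by
      intro x _
      rw [abs_pos]
      exact_mod_cast x.den_ne_zero) (by
      intro x hx
      have h2 := (Finset.mem_filter.1 hx).2
      have h3 : |(x.num : ℝ)| = (x.num.natAbs : ℝ) := by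
        rw [Nat.cast_natAbs, Int.cast_abs]
      rw [h3, Nat.abs_cast]
      exact_mod_cast h2) (by
      intro x hx
      rw [Nat.abs_cast]
      exact (hH x (Finset.mem_filter.1 hx).1).2) (by
      intro x _ y _
      rw [Nat.cast_natAbs, Int.cast_abs]
      unfold dt
      push_cast
      rfl)
  have h2 := key (S.filter fun x => ¬ x.num.natAbs ≤ x.den) (fun x => x.den) (fun x => x.num)
    (Finset.filter_subset _ _) (by
      intro x hx
      have h2 := (Finset.mem_filter.1 hx).2
      rw [abs_pos]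
      intro h3
      have h4 : x.num = 0 := by exact_mod_cast h3
      rw [h4] at h2
      simp at h2) (by
      intro x hx
      have h2 := (Finset.mem_filter.1 hx).2
      have h3 : |(x.num : ℝ)| = (x.num.natAbs : ℝ) := by
        rw [Nat.cast_natAbs, Int.cast_abs]
      rw [h3, Nat.abs_cast]
      exact_mod_cast (not_le.1 h2).le) (by
      intro x hx
      have h3 : |(x.num : ℝ)| = (x.num.natAbs : ℝ) := by
        rw [Nat.cast_natAbs, Int.cast_abs]
      rw [h3]
      exact (hH x (Finset.mem_filter.1 hx).1).1) (by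
      intro x _ y _
      rw [Nat.cast_natAbs, Int.cast_abs, ← abs_neg]
      unfold dt
      push_cast
      congr 1
      ring)
  have h3 : S.card = (S.filter fun x => x.num.natAbs ≤ x.den).card +
      (S.filter fun x => ¬ x.num.natAbs ≤ x.den).card :=
    (Finset.card_filter_add_card_filter_not _).symm
  rw [h3]
  push_cast
  have h4 : 4 * B ^ 2 / D + 2 = (2 * B ^ 2 / D + 1) + (2 * B ^ 2 / D + 1) := by ring
  rw [h4]
  exact add_le_add h1 h2

variable {ι : Type} [Fintype ι] [DecidableEq ι]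

omit [Fintype ι] [DecidableEq ι] in
theorem two_pts {u v : ι → ℤ} {t : ℤ} {j : ι} {x y : ℚ} (h1 : t ∣ L u v j x.num x.den)
    (h2 : t ∣ L u v j y.num y.den) : t ∣ (|u j| + |v j|) * dt x y := by
  have h3 : t ∣ u j * dt x y := by
    have : u j * dt x y = y.den * L u v j x.num x.den - x.den * L u v j y.num y.den := by
      unfold L dt; ring
    rw [this]
    exact dvd_sub (h1.mul_left _) (h2.mul_left _)
  have h4 : t ∣ v j * dt x y := by
    have : v j * dt x y = x.num * L u v j y.num y.den - y.num * L u v j x.num x.den := by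
      unfold L dt; ring
    rw [this]
    exact dvd_sub (h2.mul_left _) (h1.mul_left _)
  rw [add_mul]
  apply dvd_add
  · rcases abs_choice (u j) with h | h
    · rw [h]; exact h3
    · rw [h, neg_mul]; exact (dvd_neg).2 h3
  · rcases abs_choice (v j) with h | h
    · rw [h]; exact h4
    · rw [h, neg_mul]; exact (dvd_neg).2 h4

omit [Fintype ι] in
theorem gcd_prod (t : ι → ℕ) (R : ℕ) (k : ι) (J : Finset ι) (hk : k ∉ J)
    (hR : ∀ i j, i ≠ j → Nat.gcd (t i) (t j) ∣ R) :
    Nat.gcd (t k) (∏ j ∈ J, t j) ∣ R ^ J.card := by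
  induction J using Finset.induction_on with
  | empty => simp
  | insert x J hx ih =>
    rw [Finset.prod_insert hx, Finset.card_insert_of_notMem hx, pow_succ']
    refine (Nat.gcd_mul_right_dvd_mul_gcd (t k) (t x) (∏ j ∈ J, t j)).trans ?_
    exact mul_dvd_mul (hR k x fun h => hk (by rw [h]; exact Finset.mem_insert_self _ _))
      (ih fun h => hk (Finset.mem_insert_of_mem h))

omit [Fintype ι] in
theorem prod_dvd (t : ι → ℕ) (d R : ℕ) (hR : ∀ i j, i ≠ j → Nat.gcd (t i) (t j) ∣ R)
    (h : ∀ j, t j ∣ R * d) (J : Finset ι) : ∏ j ∈ J, t j ∣ R ^ (J.card ^ 2) * d := by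
  induction J using Finset.induction_on with
  | empty => simp
  | insert k J hk ih =>
    rw [Finset.prod_insert hk, Finset.card_insert_of_notMem hk]
    set c := J.card with hc
    have h1 : t k ∣ R ^ (c ^ 2 + 1) * d := by
      rw [pow_succ, mul_assoc]
      exact (h k).mul_left _
    have h2 : ∏ j ∈ J, t j ∣ R ^ (c ^ 2 + 1) * d := by
      have : R ^ (c ^ 2 + 1) * d = R * (R ^ (c ^ 2) * d) := by ring
      rw [this]
      exact ih.mul_left _
    have h3 : Nat.lcm (t k) (∏ j ∈ J, t j) ∣ R ^ (c ^ 2 + 1) * d := Nat.lcm_dvd h1 h2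
    have h4 := gcd_prod t R k J hk hR
    rw [← Nat.gcd_mul_lcm (t k) (∏ j ∈ J, t j)]
    refine (mul_dvd_mul h4 h3).trans ?_
    rw [← mul_assoc, ← pow_add]
    apply mul_dvd_mul_right
    apply pow_dvd_pow
    nlinarith

end Pool.Agent.H845.Voj
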