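import Pool.Agent.H845.Voj.Core

set_option autoImplicit false

namespace Pool.Agent.H845.Voj

open Module

/-- data needed for the counting theorems -/
structure Dat (g : ℕ) (f : ℚ → ℚ) where
  ι : Type
  fin : Fintype ι
  dec : DecidableEq ι
  card : Fintype.card ι = 2 * g + 2
  D0 : ℤ
  u : ι → ℤ
  v : ι → ℤ
  hD : D0 ≠ 0
  hdet : ∀ i j, i ≠ j → det u v i j ≠ 0
  huv : ∀ j, |u j| + |v j| ≠ 0
  hf : ∀ x, f x ≠ 0 → (∀ j, L u v j x.num x.den ≠ 0) ∧ ∃ ρ : ℚ, ρ ≠ 0 ∧
      f x = ρ ^ 2 * ((D0 * ∏ j, L u v j x.num x.den : ℤ) : ℚ)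

theorem Lval (r : ℚ) (x : ℚ) : (((r.den : ℤ) * x.num + (-r.num) * x.den : ℤ) : ℚ) =
    r.den * x.den * (x - r) := by
  have h1 : (x.num : ℚ) = x * x.den := (Rat.mul_den_eq_num x).symm
  have h2 : (r.num : ℚ) = r * r.den := (Rat.mul_den_eq_num r).symm
  push_cast
  rw [h1, h2]
  ring

theorem detne {r s : ℚ} (h : r ≠ s) : (r.den : ℤ) * (-s.num) - (s.den : ℤ) * (-r.num) ≠ 0 := by
  intro h1
  apply h
  rw [Rat.eq_iff_mul_eq_mul]
  linarith

noncomputable def datEven (g : ℕ) (c : ℚ) (hc : c ≠ 0) (e : Fin (2 * g + 2) → ℚ)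
    (he : Function.Injective e) : Dat g (fun x => c * ∏ i, (x - e i)) where
  ι := Fin (2 * g + 2)
  fin := inferInstance
  dec := inferInstance
  card := by simp
  D0 := c.num * c.den * ∏ j, ((e j).den : ℤ)
  u := fun j => (e j).den
  v := fun j => -(e j).num
  hD := by
    refine mul_ne_zero (mul_ne_zero (Rat.num_ne_zero.2 hc) (by exact_mod_cast c.den_ne_zero)) ?_
    exact Finset.prod_ne_zero_iff.2 fun j _ => by exact_mod_cast (e j).den_ne_zero
  hdet := fun i j hij => detne fun h => hij (he h)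
  huv := fun j => by
    have h1 : (0 : ℤ) < |((e j).den : ℤ)| := abs_pos.2 (by exact_mod_cast (e j).den_ne_zero)
    have h2 : (0 : ℤ) ≤ |-(e j).num| := abs_nonneg _
    omega
  hf := by
    intro x hx
    have hx1 : ∏ i, (x - e i) ≠ 0 := right_ne_zero_of_mul hx
    have hx2 : ∀ i, x - e i ≠ 0 := fun i => Finset.prod_ne_zero_iff.1 hx1 i (Finset.mem_univ i)
    have hxd : (x.den : ℚ) ≠ 0 := by exact_mod_cast x.den_ne_zero
    have hed : ∀ i, ((e i).den : ℚ) ≠ 0 := fun i => by exact_mod_cast (e i).den_ne_zero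
    have hcd : (c.den : ℚ) ≠ 0 := by exact_mod_cast c.den_ne_zero
    have hq0 : (∏ i, ((e i).den : ℚ)) ≠ 0 := Finset.prod_ne_zero_iff.2 fun i _ => hed i
    refine ⟨?_, 1 / (c.den * (∏ i, ((e i).den : ℚ)) * x.den ^ (g + 1)), by positivity, ?_⟩
    · intro j h
      have h1 := Lval (e j) x
      have h2 : (((e j).den : ℤ) * x.num + (-(e j).num) * x.den : ℤ) = 0 := h
      rw [h2] at h1
      have h3 : (((e j).den : ℚ) * x.den * (x - e j)) ≠ 0 :=
        mul_ne_zero (mul_ne_zero (hed j) hxd) (hx2 j)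
      exact h3 (by rw [← h1]; simp)
    · have h1 : (((∏ j, L (fun j => ((e j).den : ℤ)) (fun j => -(e j).num) j x.num x.den : ℤ)) : ℚ)
          = (∏ i, ((e i).den : ℚ)) * (x.den : ℚ) ^ (2 * g + 2) * ∏ i, (x - e i) := by
        rw [Int.cast_prod]
        have h2 : ∀ j, ((L (fun j => ((e j).den : ℤ)) (fun j => -(e j).num) j x.num x.den : ℤ) : ℚ)
            = (e j).den * x.den * (x - e j) := fun j => Lval (e j) x
        simp_rw [h2]
        rw [Finset.prod_mul_distrib, Finset.prod_mul_distrib]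
        simp
      rw [Int.cast_mul, h1]
      have hcn : (c.num : ℚ) = c * c.den := (Rat.mul_den_eq_num c).symm
      push_cast
      rw [hcn]
      field_simp
      ring

noncomputable def datOdd (g : ℕ) (c : ℚ) (hc : c ≠ 0) (e : Fin (2 * g + 1) → ℚ)
    (he : Function.Injective e) : Dat g (fun x => c * ∏ i, (x - e i)) where
  ι := Option (Fin (2 * g + 1))
  fin := inferInstance
  dec := inferInstance
  card := by simp
  D0 := c.num * c.den * ∏ j, ((e j).den : ℤ)
  u := fun o => o.elim 0 (fun j => ((e j).den : ℤ))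
  v := fun o => o.elim 1 (fun j => -(e j).num)
  hD := by
    refine mul_ne_zero (mul_ne_zero (Rat.num_ne_zero.2 hc) (by exact_mod_cast c.den_ne_zero)) ?_
    exact Finset.prod_ne_zero_iff.2 fun j _ => by exact_mod_cast (e j).den_ne_zero
  hdet := by
    intro i j hij
    rcases i with _ | i <;> rcases j with _ | j
    · exact absurd rfl hij
    · simp [det]
    · simp [det]
    · exact detne fun h => hij (by rw [he h])
  huv := by
    intro j
    rcases j with _ | j
    · simp
    · have h1 : (0 : ℤ) < |((e j).den : ℤ)| := abs_pos.2 (by exact_mod_cast (e j).den_ne_zero)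
      have h2 : (0 : ℤ) ≤ |-(e j).num| := abs_nonneg _
      simp only [Option.elim_some]
      omega
  hf := by
    intro x hx
    have hx1 : ∏ i, (x - e i) ≠ 0 := right_ne_zero_of_mul hx
    have hx2 : ∀ i, x - e i ≠ 0 := fun i => Finset.prod_ne_zero_iff.1 hx1 i (Finset.mem_univ i)
    have hxd : (x.den : ℚ) ≠ 0 := by exact_mod_cast x.den_ne_zero
    have hed : ∀ i, ((e i).den : ℚ) ≠ 0 := fun i => by exact_mod_cast (e i).den_ne_zero
    have hcd : (c.den : ℚ) ≠ 0 := by exact_mod_cast c.den_ne_zero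
    have hq0 : (∏ i, ((e i).den : ℚ)) ≠ 0 := Finset.prod_ne_zero_iff.2 fun i _ => hed i
    refine ⟨?_, 1 / (c.den * (∏ i, ((e i).den : ℚ)) * x.den ^ (g + 1)), by positivity, ?_⟩
    · intro j h
      rcases j with _ | j
      · simp [L, x.den_ne_zero] at h
      · have h1 := Lval (e j) x
        have h2 : (((e j).den : ℤ) * x.num + (-(e j).num) * x.den : ℤ) = 0 := h
        rw [h2] at h1
        have h3 : (((e j).den : ℚ) * x.den * (x - e j)) ≠ 0 :=
          mul_ne_zero (mul_ne_zero (hed j) hxd) (hx2 j)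
        exact h3 (by rw [← h1]; simp)
    · have h1 : (((∏ j : Option (Fin (2 * g + 1)), L
          (fun o => o.elim 0 (fun j => ((e j).den : ℤ)))
          (fun o => o.elim 1 (fun j => -(e j).num)) j x.num x.den : ℤ)) : ℚ)
          = (∏ i, ((e i).den : ℚ)) * (x.den : ℚ) ^ (2 * g + 2) * ∏ i, (x - e i) := by
        rw [Int.cast_prod, Fintype.prod_option]
        have h2 : ∀ j, ((L (fun o : Option (Fin (2 * g + 1)) =>
            o.elim 0 (fun j => ((e j).den : ℤ)))
            (fun o => o.elim 1 (fun j => -(e j).num)) (some j) x.num x.den : ℤ) : ℚ)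
            = (e j).den * x.den * (x - e j) := fun j => Lval (e j) x
        have h3 : ((L (fun o : Option (Fin (2 * g + 1)) =>
            o.elim 0 (fun j => ((e j).den : ℤ)))
            (fun o => o.elim 1 (fun j => -(e j).num)) none x.num x.den : ℤ) : ℚ) = x.den := by
          simp [L]
        simp_rw [h2]
        rw [h3, Finset.prod_mul_distrib, Finset.prod_mul_distrib]
        simp
        ring
      rw [Int.cast_mul, h1]
      have hcn : (c.num : ℚ) = c * c.den := (Rat.mul_den_eq_num c).symm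
      push_cast
      rw [hcn]
      field_simp
      ring

theorem exists_dat (g n : ℕ) (hn : n = 2 * g + 1 ∨ n = 2 * g + 2) (c : ℚ) (hc : c ≠ 0)
    (e : Fin n → ℚ) (he : Function.Injective e) : Nonempty (Dat g (fun x => c * ∏ i, (x - e i))) := by
  rcases hn with rfl | rfl
  · exact ⟨datOdd g c hc e he⟩
  · exact ⟨datEven g c hc e he⟩

end Pool.Agent.H845.Voj
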