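import Pool.Agent.H845.Voj.Core

set_option autoImplicit false

namespace Pool.Agent.H845.Voj

open Module

theorem sum_inv_sqrt (M : ℕ) : ∑ k ∈ Finset.Icc 1 M, 1 / Real.sqrt k ≤ 2 * Real.sqrt M := by
  induction M with
  | zero => simp
  | succ n ih =>
    rw [Finset.sum_Icc_succ_top (by omega)]
    have h1 : 1 / Real.sqrt ((n + 1 : ℕ) : ℝ) ≤
        2 * Real.sqrt ((n + 1 : ℕ) : ℝ) - 2 * Real.sqrt n := by
      have h2 : 0 < Real.sqrt ((n + 1 : ℕ) : ℝ) := Real.sqrt_pos.2 (by positivity)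
      rw [div_le_iff₀ h2]
      have h3 : Real.sqrt ((n + 1 : ℕ) : ℝ) * Real.sqrt ((n + 1 : ℕ) : ℝ) = n + 1 := by
        rw [Real.mul_self_sqrt (by positivity)]; push_cast; ring
      have h4 : Real.sqrt (n : ℝ) * Real.sqrt (n : ℝ) = n := Real.mul_self_sqrt (by positivity)
      nlinarith [sq_nonneg (Real.sqrt ((n + 1 : ℕ) : ℝ) - Real.sqrt (n : ℝ))]
    linarith

theorem pair_sum (Y T : ℕ) : (∑ s ∈ Finset.Icc 1 T, ∑ s' ∈ Finset.Icc 1 (T / s),
    (4 * (Nat.sqrt (Y / s) : ℝ) * (Nat.sqrt (Y / s') : ℝ))) ≤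
    8 * Y * Real.sqrt T * (1 + Real.log T) := by
  have hsq : ∀ s : ℕ, 1 ≤ s → (Nat.sqrt (Y / s) : ℝ) ≤ Real.sqrt Y * (1 / Real.sqrt s) := by
    intro s hs
    have hs0 : (0 : ℝ) < s := by exact_mod_cast hs
    have h1 : (Nat.sqrt (Y / s) : ℝ) ≤ Real.sqrt ((Y / s : ℕ) : ℝ) := Real.nat_sqrt_le_real_sqrt
    have h2 : ((Y / s : ℕ) : ℝ) ≤ (Y : ℝ) / s := Nat.cast_div_le
    refine h1.trans ((Real.sqrt_le_sqrt h2).trans (le_of_eq ?_))
    rw [Real.sqrt_div' _ hs0.le]
    ring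
  have hin : ∀ s ∈ Finset.Icc 1 T, ∑ s' ∈ Finset.Icc 1 (T / s),
      (4 * (Nat.sqrt (Y / s) : ℝ) * (Nat.sqrt (Y / s') : ℝ)) ≤
      8 * Y * Real.sqrt T * ((s : ℝ))⁻¹ := by
    intro s hs
    have hs1 : 1 ≤ s := (Finset.mem_Icc.1 hs).1
    have hs0 : (0 : ℝ) < s := by exact_mod_cast hs1
    have h1 : ∀ s' ∈ Finset.Icc 1 (T / s),
        (4 * (Nat.sqrt (Y / s) : ℝ) * (Nat.sqrt (Y / s') : ℝ)) ≤
        (4 * (Real.sqrt Y * (1 / Real.sqrt s)) * Real.sqrt Y) * (1 / Real.sqrt s') := by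
      intro s' hs'
      have h2 := hsq s hs1
      have h3 := hsq s' (Finset.mem_Icc.1 hs').1
      calc (4 * (Nat.sqrt (Y / s) : ℝ) * (Nat.sqrt (Y / s') : ℝ)) ≤
          (4 * (Real.sqrt Y * (1 / Real.sqrt s))) * (Real.sqrt Y * (1 / Real.sqrt s')) :=
            mul_le_mul (by linarith) h3 (by positivity) (by positivity)
        _ = _ := by ring
    refine (Finset.sum_le_sum h1).trans ?_
    rw [← Finset.mul_sum]
    have h2 : ∑ s' ∈ Finset.Icc 1 (T / s), 1 / Real.sqrt (s' : ℝ) ≤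
        2 * (Real.sqrt T * (1 / Real.sqrt s)) := by
      refine (sum_inv_sqrt (T / s)).trans ?_
      have h3 : ((T / s : ℕ) : ℝ) ≤ (T : ℝ) / s := Nat.cast_div_le
      have h4 := Real.sqrt_le_sqrt h3
      rw [Real.sqrt_div' _ hs0.le] at h4
      have h5 : Real.sqrt T / Real.sqrt s = Real.sqrt T * (1 / Real.sqrt s) := by ring
      rw [h5] at h4
      linarith
    refine (mul_le_mul_of_nonneg_left h2 (by positivity)).trans (le_of_eq ?_)
    have h6 : Real.sqrt (Y : ℝ) * Real.sqrt (Y : ℝ) = Y := Real.mul_self_sqrt (by positivity)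
    have h7 : (1 / Real.sqrt (s : ℝ)) * (1 / Real.sqrt (s : ℝ)) = ((s : ℝ))⁻¹ := by
      rw [← sq, div_pow, Real.sq_sqrt hs0.le]; simp
    calc 4 * (Real.sqrt Y * (1 / Real.sqrt s)) * Real.sqrt Y *
          (2 * (Real.sqrt T * (1 / Real.sqrt s))) =
        8 * (Real.sqrt (Y : ℝ) * Real.sqrt (Y : ℝ)) * Real.sqrt T *
          ((1 / Real.sqrt (s : ℝ)) * (1 / Real.sqrt (s : ℝ))) := by ring
      _ = _ := by rw [h6, h7]
  refine (Finset.sum_le_sum hin).trans ?_
  rw [← Finset.mul_sum]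
  exact mul_le_mul_of_nonneg_left (harm T) (by positivity)

variable {ι : Type} [Fintype ι] [DecidableEq ι]

omit [Fintype ι] [DecidableEq ι] in
theorem pair_count {u v : ι → ℤ} (i j : ι) (hij : det u v i j ≠ 0) (Y T : ℕ) (S : Finset ℚ)
    (hS : ∀ x ∈ S, (L u v i x.num x.den).natAbs ≤ Y ∧ (L u v j x.num x.den).natAbs ≤ Y ∧
      ∃ s m s' m' : ℕ, 1 ≤ s ∧ 1 ≤ m ∧ 1 ≤ s' ∧ 1 ≤ m' ∧ s * s' ≤ T ∧
        m ^ 2 * s = (L u v i x.num x.den).natAbs ∧ m' ^ 2 * s' = (L u v j x.num x.den).natAbs) :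
    (S.card : ℝ) ≤ 8 * Y * Real.sqrt T * (1 + Real.log T) := by
  classical
  set U : Finset (ℤ × ℤ) := (Finset.Icc 1 T).biUnion fun s => (Finset.Icc 1 (T / s)).biUnion
    fun s' => ((Finset.Icc 1 (Nat.sqrt (Y / s)) ×ˢ Finset.Icc 1 (Nat.sqrt (Y / s'))) ×ˢ
      (({1, -1} : Finset ℤ) ×ˢ ({1, -1} : Finset ℤ))).image
      (fun z : (ℕ × ℕ) × (ℤ × ℤ) => (z.2.1 * ((z.1.1 ^ 2 * s : ℕ) : ℤ),
        z.2.2 * ((z.1.2 ^ 2 * s' : ℕ) : ℤ))) with hU
  have hsg : ∀ z : ℤ, z ≠ 0 → z.sign ∈ ({1, -1} : Finset ℤ) := by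
    intro z hz
    rcases lt_or_gt_of_ne hz with h | h
    · rw [Int.sign_eq_neg_one_of_neg h]; simp
    · rw [Int.sign_eq_one_of_pos h]; simp
  have h1 : S.card ≤ U.card := by
    apply Finset.card_le_card_of_injOn
      (fun x => (L u v i x.num x.den, L u v j x.num x.den))
    · intro x hx
      obtain ⟨hi, hj, s, m, s', m', hs, hm, hs', hm', hss, h2, h3⟩ := hS x hx
      have hss2 : s ≤ T := le_trans (Nat.le_mul_of_pos_right _ hs') hss
      have hss3 : s' ≤ T / s := by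
        rw [Nat.le_div_iff_mul_le hs, mul_comm]; exact hss
      have hm2 : m ≤ Nat.sqrt (Y / s) := by
        rw [Nat.le_sqrt, Nat.le_div_iff_mul_le hs, ← sq, h2]; exact hi
      have hm3 : m' ≤ Nat.sqrt (Y / s') := by
        rw [Nat.le_sqrt, Nat.le_div_iff_mul_le hs', ← sq, h3]; exact hj
      have hLi : L u v i x.num x.den ≠ 0 := by
        rw [← Int.natAbs_ne_zero, ← h2]; positivity
      have hLj : L u v j x.num x.den ≠ 0 := by
        rw [← Int.natAbs_ne_zero, ← h3]; positivity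
      rw [hU, Finset.mem_coe, Finset.mem_biUnion]
      refine ⟨s, Finset.mem_Icc.2 ⟨hs, hss2⟩, ?_⟩
      rw [Finset.mem_biUnion]
      refine ⟨s', Finset.mem_Icc.2 ⟨hs', hss3⟩, ?_⟩
      rw [Finset.mem_image]
      refine ⟨((m, m'), ((L u v i x.num x.den).sign, (L u v j x.num x.den).sign)), ?_, ?_⟩
      · simp only [Finset.mem_product, Finset.mem_Icc]
        exact ⟨⟨⟨hm, hm2⟩, hm', hm3⟩, hsg _ hLi, hsg _ hLj⟩
      · simp only [Prod.mk.injEq]
        rw [h2, h3]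
        exact ⟨Int.sign_mul_natAbs _, Int.sign_mul_natAbs _⟩
    · intro x _ y _ hxy
      simp only [Prod.mk.injEq] at hxy
      obtain ⟨h2, h3⟩ := hxy
      have ha : det u v i j * x.num = det u v i j * y.num := by
        have e1 : det u v i j * x.num = v j * L u v i x.num x.den - v i * L u v j x.num x.den := by
          unfold det L; ring
        have e2 : det u v i j * y.num = v j * L u v i y.num y.den - v i * L u v j y.num y.den := by
          unfold det L; ring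
        rw [e1, e2, h2, h3]
      have hb : det u v i j * (x.den : ℤ) = det u v i j * (y.den : ℤ) := by
        have e1 : det u v i j * (x.den : ℤ) =
            u i * L u v j x.num x.den - u j * L u v i x.num x.den := by
          unfold det L; ring
        have e2 : det u v i j * (y.den : ℤ) =
            u i * L u v j y.num y.den - u j * L u v i y.num y.den := by
          unfold det L; ring
        rw [e1, e2, h2, h3]
      exact Rat.ext (mul_left_cancel₀ hij ha) (by exact_mod_cast mul_left_cancel₀ hij hb)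
  have h2 : U.card ≤ ∑ s ∈ Finset.Icc 1 T, ∑ s' ∈ Finset.Icc 1 (T / s),
      (4 * Nat.sqrt (Y / s) * Nat.sqrt (Y / s')) := by
    refine Finset.card_biUnion_le.trans (Finset.sum_le_sum fun s _ => ?_)
    refine Finset.card_biUnion_le.trans (Finset.sum_le_sum fun s' _ => ?_)
    refine Finset.card_image_le.trans (le_of_eq ?_)
    rw [Finset.card_product, Finset.card_product, Finset.card_product, Nat.card_Icc, Nat.card_Icc]
    have : ({1, -1} : Finset ℤ).card = 2 := rfl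
    rw [this]
    simp only [Nat.add_sub_cancel]
    ring
  have h3 : (S.card : ℝ) ≤ ∑ s ∈ Finset.Icc 1 T, ∑ s' ∈ Finset.Icc 1 (T / s),
      (4 * (Nat.sqrt (Y / s) : ℝ) * (Nat.sqrt (Y / s') : ℝ)) := by
    exact_mod_cast h1.trans h2
  exact h3.trans (pair_sum Y T)

set_option maxHeartbeats 1000000 in
theorem main_a (g : ℕ) (hN : Fintype.card ι = 2 * g + 2) {D0 : ℤ} {u v : ι → ℤ}
    (hD : D0 ≠ 0) (hdet : ∀ i j, i ≠ j → det u v i j ≠ 0)
    (f : ℚ → ℚ)
    (hf : ∀ x, f x ≠ 0 → (∀ j, L u v j x.num x.den ≠ 0) ∧ ∃ ρ : ℚ, ρ ≠ 0 ∧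
      f x = ρ ^ 2 * ((D0 * ∏ j, L u v j x.num x.den : ℤ) : ℚ)) (κ : ℝ) (hκ : 0 ≤ κ) :
    ∃ C : ℝ, ∀ B : ℕ, 1 ≤ B →
      ({x : ℚ | hgt x ≤ B ∧ f x ≠ 0 ∧
        logDisc (SqrtField (f x)) ≤ κ * Real.log (hgt x)}.ncard : ℝ) ≤
      C * (B : ℝ) ^ (1 + κ / (g + 1)) * (1 + Real.log B) := by
  classical
  set A : ℕ := 1 + ∑ j, ((u j).natAbs + (v j).natAbs) with hA
  have hle : ∀ j, (u j).natAbs + (v j).natAbs ≤ ∑ j, ((u j).natAbs + (v j).natAbs) := fun j =>
    Finset.single_le_sum (f := fun j => (u j).natAbs + (v j).natAbs)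
      (fun _ _ => Nat.zero_le _) (Finset.mem_univ j)
  have hu : ∀ j, (u j).natAbs ≤ A := fun j => by have := hle j; omega
  have hv : ∀ j, (v j).natAbs ≤ A := fun j => by have := hle j; omega
  set R : ℝ := (RR D0 u v : ℝ) with hR
  have hR1 : 1 ≤ R := by
    rw [hR]
    exact_mod_cast Nat.one_le_iff_ne_zero.2 (RR_ne hD hdet)
  have hR0 : 0 < R := by linarith
  have hG : (0 : ℝ) < (g : ℝ) + 1 := by positivity
  have hlogR : 0 ≤ Real.log R := Real.log_nonneg hR1
  refine ⟨(g + 1) * (8 * (2 * A) * R) * (1 + 2 * Real.log R + 2 * κ / (g + 1)), ?_⟩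
  intro B hB
  have hB1 : (1 : ℝ) ≤ B := by exact_mod_cast hB
  have hB0 : (0 : ℝ) < B := by linarith
  have hlogB : 0 ≤ Real.log B := Real.log_nonneg hB1
  have hfin : {x : ℚ | hgt x ≤ B ∧ f x ≠ 0 ∧
      logDisc (SqrtField (f x)) ≤ κ * Real.log (hgt x)}.Finite :=
    (fin_hgt B).subset fun x hx => hx.1
  set E : Finset ℚ := hfin.toFinset with hE
  have hEm : ∀ x ∈ E, hgt x ≤ B ∧ f x ≠ 0 ∧
      logDisc (SqrtField (f x)) ≤ κ * Real.log (hgt x) := by
    intro x hx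
    exact hfin.mem_toFinset.1 hx
  rw [Set.ncard_eq_toFinset_card _ hfin, ← hE]
  -- pairing of the indices
  have hcard : Fintype.card (Fin (g + 1) × Bool) = Fintype.card ι := by
    rw [hN]; simp; ring
  set ε : Fin (g + 1) × Bool ≃ ι := Fintype.equivOfCardEq hcard with hε
  set T0 : ℝ := (R ^ (2 * g + 2) * (B : ℝ) ^ (2 * κ)) ^ (1 / ((g : ℝ) + 1)) with hT0
  have hT00 : 0 < T0 := by rw [hT0]; positivity
  set T : ℕ := ⌊T0⌋₊ with hT
  set Y : ℕ := 2 * A * B with hY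
  set P : Fin (g + 1) → ℚ → Prop := fun k x =>
    ∃ s m s' m' : ℕ, 1 ≤ s ∧ 1 ≤ m ∧ 1 ≤ s' ∧ 1 ≤ m' ∧ s * s' ≤ T ∧
        m ^ 2 * s = (L u v (ε (k, false)) x.num x.den).natAbs ∧
        m' ^ 2 * s' = (L u v (ε (k, true)) x.num x.den).natAbs with hP
  have hcover : E ⊆ (Finset.univ : Finset (Fin (g + 1))).biUnion (fun k => E.filter (P k)) := by
    intro x hx
    obtain ⟨h1, h2, h3⟩ := hEm x hx
    obtain ⟨hL, ρ, hρ, hq⟩ := hf x h2
    have hex : ∀ j, ∃ s m : ℕ, m ^ 2 * s = (L u v j x.num x.den).natAbs ∧ Squarefree s :=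
      fun j => Nat.sq_mul_squarefree _
    choose s m hm hs using hex
    have hs0 : ∀ j, 1 ≤ s j := fun j => Nat.one_le_iff_ne_zero.2 (hs j).ne_zero
    have hm0 : ∀ j, 1 ≤ m j := by
      intro j
      apply Nat.one_le_iff_ne_zero.2
      intro h
      apply hL j
      rw [← Int.natAbs_eq_zero, ← hm j, h]
      simp
    have h4 := key_s hD hdet (cop x) hL (f x) ρ hρ hq s m hs (fun j => (hm j).symm)
    rw [hN, ← hR] at h4
    have hH1 : (1 : ℝ) ≤ hgt x := by exact_mod_cast hgt_pos x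
    have h5 : Real.exp (2 * logDisc (SqrtField (f x))) ≤ (B : ℝ) ^ (2 * κ) := by
      rw [Real.rpow_def_of_pos hB0]
      apply Real.exp_le_exp.2
      have h6 : Real.log (hgt x) ≤ Real.log B :=
        Real.log_le_log (by linarith) (by exact_mod_cast h1)
      have h7 : κ * Real.log (hgt x) ≤ κ * Real.log B := mul_le_mul_of_nonneg_left h6 hκ
      linarith
    have h6 : ((∏ j, s j : ℕ) : ℝ) ≤ R ^ (2 * g + 2) * (B : ℝ) ^ (2 * κ) :=
      h4.trans (mul_le_mul_of_nonneg_left h5 (by positivity))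
    have h7 : ∏ j, s j = ∏ k : Fin (g + 1), (s (ε (k, false)) * s (ε (k, true))) := by
      rw [← Equiv.prod_comp ε, Fintype.prod_prod_type]
      apply Finset.prod_congr rfl
      intro k _
      rw [Fintype.prod_bool, mul_comm]
    have h8 : ∃ k : Fin (g + 1), ((s (ε (k, false)) * s (ε (k, true)) : ℕ) : ℝ) ≤ T0 := by
      by_contra hcon
      push Not at hcon
      have h9 : T0 ^ (g + 1) < ∏ k : Fin (g + 1),
          ((s (ε (k, false)) * s (ε (k, true)) : ℕ) : ℝ) := by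
        have : T0 ^ (g + 1) = ∏ _k : Fin (g + 1), T0 := by simp
        rw [this]
        exact Finset.prod_lt_prod_of_nonempty (fun _ _ => hT00) (fun k _ => hcon k)
          Finset.univ_nonempty
      have h10 : T0 ^ (g + 1) = R ^ (2 * g + 2) * (B : ℝ) ^ (2 * κ) := by
        rw [hT0, ← Real.rpow_natCast, ← Real.rpow_mul (by positivity)]
        have : 1 / ((g : ℝ) + 1) * ((g + 1 : ℕ) : ℝ) = 1 := by
          push_cast; field_simp
        rw [this, Real.rpow_one]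
      rw [h7] at h6
      push_cast at h6 h9
      linarith
    obtain ⟨k, hk⟩ := h8
    rw [Finset.mem_biUnion]
    refine ⟨k, Finset.mem_univ _, Finset.mem_filter.2 ⟨hx, ?_⟩⟩
    refine ⟨s (ε (k, false)), m (ε (k, false)), s (ε (k, true)), m (ε (k, true)), hs0 _, hm0 _,
      hs0 _, hm0 _, Nat.le_floor hk, hm _, hm _⟩
  have hone : ∀ k, ((E.filter (P k)).card : ℝ) ≤
      8 * Y * Real.sqrt T * (1 + Real.log T) := by
    intro k
    apply pair_count (ε (k, false)) (ε (k, true)) (hdet _ _ (by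
      intro h
      have := ε.injective h
      simp at this)) Y T
    intro x hx
    obtain ⟨hxE, hxP⟩ := Finset.mem_filter.1 hx
    have h1 := (hEm x hxE).1
    have h2 : ∀ j, (L u v j x.num x.den).natAbs ≤ Y := fun j =>
      (L_le hu hv x j).trans (Nat.mul_le_mul_left _ h1)
    exact ⟨h2 _, h2 _, hxP⟩
  have htot : (E.card : ℝ) ≤ (g + 1) * (8 * Y * Real.sqrt T * (1 + Real.log T)) := by
    have h1 := (Finset.card_le_card hcover).trans Finset.card_biUnion_le
    have h2 : (E.card : ℝ) ≤ ∑ k : Fin (g + 1), ((E.filter (P k)).card : ℝ) := by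
      exact_mod_cast h1
    refine h2.trans ((Finset.sum_le_sum fun k _ => hone k).trans (le_of_eq ?_))
    simp
  have hTle : (T : ℝ) ≤ T0 := Nat.floor_le hT00.le
  have hsqT : Real.sqrt T ≤ R * (B : ℝ) ^ (κ / (g + 1)) := by
    have h1 : Real.sqrt T0 = R * (B : ℝ) ^ (κ / (g + 1)) := by
      rw [Real.sqrt_eq_iff_mul_self_eq hT00.le (by positivity), hT0,
        Real.mul_rpow (by positivity) (by positivity), ← Real.rpow_natCast R (2 * g + 2),
        ← Real.rpow_mul hR0.le, ← Real.rpow_mul hB0.le]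
      have h2 : ((2 * g + 2 : ℕ) : ℝ) * (1 / ((g : ℝ) + 1)) = 2 := by
        push_cast; field_simp
      have h3 : 2 * κ * (1 / ((g : ℝ) + 1)) = κ / (g + 1) + κ / (g + 1) := by ring
      rw [h2, h3, Real.rpow_add hB0, Real.rpow_two]
      ring
    rw [← h1]
    exact Real.sqrt_le_sqrt hTle
  have hlogT : Real.log T ≤ 2 * Real.log R + 2 * κ / (g + 1) * Real.log B := by
    have h1 : Real.log T0 = 2 * Real.log R + 2 * κ / (g + 1) * Real.log B := by
      rw [hT0, Real.log_rpow (by positivity), Real.log_mul (by positivity) (by positivity),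
        Real.log_pow, Real.log_rpow hB0]
      push_cast
      field_simp
    rcases Nat.eq_zero_or_pos T with h0 | h0
    · rw [h0]
      simp only [Nat.cast_zero, Real.log_zero]
      positivity
    · rw [← h1]
      exact Real.log_le_log (by exact_mod_cast h0) hTle
  have hlogT0 : 0 ≤ Real.log (T : ℝ) := Real.log_natCast_nonneg _
  have h9 : 1 + Real.log T ≤ (1 + 2 * Real.log R + 2 * κ / (g + 1)) * (1 + Real.log B) := by
    have h10 : 0 ≤ 2 * κ / ((g : ℝ) + 1) := by positivity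
    have h11 : 0 ≤ Real.log R * Real.log B := mul_nonneg hlogR hlogB
    have h12 : (1 + 2 * Real.log R + 2 * κ / (g + 1)) * (1 + Real.log B) =
        1 + 2 * Real.log R + 2 * κ / (g + 1) + Real.log B + 2 * (Real.log R * Real.log B) +
        2 * κ / (g + 1) * Real.log B := by ring
    rw [h12]
    linarith
  refine htot.trans ?_
  have h13 : (B : ℝ) ^ (1 + κ / (g + 1)) = B * (B : ℝ) ^ (κ / (g + 1)) := by
    rw [Real.rpow_add hB0, Real.rpow_one]
  have hYr : (Y : ℝ) = 2 * A * B := by rw [hY]; push_cast; ring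
  rw [h13, hYr]
  calc ((g : ℝ) + 1) * (8 * (2 * A * B) * Real.sqrt T * (1 + Real.log T)) ≤
      ((g : ℝ) + 1) * (8 * (2 * A * B) * (R * (B : ℝ) ^ (κ / (g + 1))) *
        ((1 + 2 * Real.log R + 2 * κ / (g + 1)) * (1 + Real.log B))) := by
        apply mul_le_mul_of_nonneg_left _ hG.le
        apply mul_le_mul _ h9 (by positivity) (by positivity)
        exact mul_le_mul_of_nonneg_left hsqT (by positivity)
    _ = _ := by ring

end Pool.Agent.H845.Voj
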