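import Pool.Agent.H845.Voj.Core

set_option autoImplicit false

namespace Pool.Agent.H845.Voj

open Module

variable {ι : Type} [Fintype ι] [DecidableEq ι]

set_option maxHeartbeats 1000000 in
theorem main_b (g : ℕ) (hN : Fintype.card ι = 2 * g + 2) {D0 : ℤ} {u v : ι → ℤ}
    (hD : D0 ≠ 0) (hdet : ∀ i j, i ≠ j → det u v i j ≠ 0) (huv : ∀ j, |u j| + |v j| ≠ 0)
    (f : ℚ → ℚ)
    (hf : ∀ x, f x ≠ 0 → (∀ j, L u v j x.num x.den ≠ 0) ∧ ∃ ρ : ℚ, ρ ≠ 0 ∧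
      f x = ρ ^ 2 * ((D0 * ∏ j, L u v j x.num x.den : ℤ) : ℚ)) :
    ∃ C : ℝ, ∀ B : ℕ, 1 ≤ B →
      ({x : ℚ | hgt x ≤ B ∧ f x ≠ 0 ∧
        logDisc (SqrtField (f x)) < ((g : ℝ) - 7 / 10) * Real.log (hgt x)}.ncard : ℝ) ≤
      C * (B : ℝ) ^ (5 / 4 : ℝ) * (1 + Real.log B) ^ (2 * g + 2) := by
  classical
  -- constants
  set A : ℕ := 1 + ∑ j, ((u j).natAbs + (v j).natAbs) with hA
  have hA1 : 1 ≤ A := by omega
  have hle : ∀ j, (u j).natAbs + (v j).natAbs ≤ ∑ j, ((u j).natAbs + (v j).natAbs) := fun j =>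
    Finset.single_le_sum (f := fun j => (u j).natAbs + (v j).natAbs)
      (fun _ _ => Nat.zero_le _) (Finset.mem_univ j)
  have hu : ∀ j, (u j).natAbs ≤ A := fun j => by have := hle j; omega
  have hv : ∀ j, (v j).natAbs ≤ A := fun j => by have := hle j; omega
  have hA' : (1 : ℝ) ≤ A := by exact_mod_cast hA1
  set R2 : ℝ := ((RR D0 u v * ∏ j, (|u j| + |v j|).natAbs : ℕ) : ℝ) ^ (Fintype.card ι ^ 2)
    with hR2
  have hR20 : 0 ≤ R2 := by rw [hR2]; positivity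
  have hRR1 : (1 : ℝ) ≤ RR D0 u v := by
    exact_mod_cast Nat.one_le_iff_ne_zero.2 (RR_ne hD hdet)
  set K0 : ℝ := (2 * A) ^ (2 * g + 1) * (RR D0 u v : ℝ) ^ (2 * g + 2) with hK0
  have hK01 : 1 ≤ K0 := by
    rw [hK0]
    have h1 : (1 : ℝ) ≤ (2 * A) ^ (2 * g + 1) := one_le_pow₀ (by linarith)
    have h2 : (1 : ℝ) ≤ (RR D0 u v : ℝ) ^ (2 * g + 2) := one_le_pow₀ hRR1
    nlinarith
  set c : ℝ := 1 / Real.sqrt K0 with hc
  have hsq1 : 1 ≤ Real.sqrt K0 := Real.one_le_sqrt.2 hK01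
  have hc0 : 0 < c := by rw [hc]; positivity
  have hc1 : c ≤ 1 := by
    rw [hc, div_le_one (by linarith)]
    exact hsq1
  set α : ℝ := Real.log (Real.sqrt (2 * A)) with hα
  have hα0 : 0 ≤ α := Real.log_nonneg (Real.one_le_sqrt.2 (by linarith))
  refine ⟨3 + (4 * R2 / c + 2 * Real.sqrt (2 * A)) * (5 / 4 + α) ^ (2 * g + 2), ?_⟩
  intro B hB
  have hB1 : (1 : ℝ) ≤ B := by exact_mod_cast hB
  have hB0 : (0 : ℝ) < B := by linarith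
  have hfin : {x : ℚ | hgt x ≤ B ∧ f x ≠ 0 ∧
      logDisc (SqrtField (f x)) < ((g : ℝ) - 7 / 10) * Real.log (hgt x)}.Finite :=
    (fin_hgt B).subset fun x hx => hx.1
  set E : Finset ℚ := hfin.toFinset with hE
  have hEm : ∀ x ∈ E, hgt x ≤ B ∧ f x ≠ 0 ∧
      logDisc (SqrtField (f x)) < ((g : ℝ) - 7 / 10) * Real.log (hgt x) := by
    intro x hx
    exact hfin.mem_toFinset.1 hx
  rw [Set.ncard_eq_toFinset_card _ hfin, ← hE]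
  set Es := E.filter (fun x => ¬ (B : ℝ) ^ (5 / 8 : ℝ) ≤ hgt x) with hEs
  set Eb := E.filter (fun x => (B : ℝ) ^ (5 / 8 : ℝ) ≤ hgt x) with hEb
  have hsplit : E.card = Eb.card + Es.card := (Finset.card_filter_add_card_filter_not _).symm
  have hlogB : 0 ≤ Real.log B := Real.log_nonneg hB1
  have hpowN : (1 : ℝ) ≤ (1 + Real.log B) ^ (2 * g + 2) := one_le_pow₀ (by linarith)
  have hB54 : (B : ℝ) ^ (5 / 4 : ℝ) = ((B : ℝ) ^ (5 / 8 : ℝ)) ^ 2 := by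
    rw [← Real.rpow_natCast, ← Real.rpow_mul hB0.le]
    norm_num
  -- small heights
  have hsmall : (Es.card : ℝ) ≤ 3 * (B : ℝ) ^ (5 / 4 : ℝ) := by
    have h1 := hgt_finset ⌊(B : ℝ) ^ (5 / 8 : ℝ)⌋₊ Es (by
      intro x hx
      have h2 := (Finset.mem_filter.1 hx).2
      exact Nat.le_floor (not_le.1 h2).le)
    set n := ⌊(B : ℝ) ^ (5 / 8 : ℝ)⌋₊ with hn
    have hBp : (1 : ℝ) ≤ (B : ℝ) ^ (5 / 8 : ℝ) := Real.one_le_rpow hB1 (by norm_num)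
    have hn1 : 1 ≤ n := Nat.le_floor (by simpa using hBp)
    have h2 : (Es.card : ℝ) ≤ (2 * n + 1) * n := by exact_mod_cast h1
    have h3 : (n : ℝ) ≤ (B : ℝ) ^ (5 / 8 : ℝ) := Nat.floor_le (by positivity)
    have h4 : (1 : ℝ) ≤ n := by exact_mod_cast hn1
    rw [hB54]
    nlinarith
  -- large heights
  set W1 : ℝ := max 1 (c * (B : ℝ) ^ (3 / 4 : ℝ)) with hW1
  set W2 : ℝ := W1 * Real.sqrt (2 * A * B) with hW2
  have hW11 : 1 ≤ W1 := le_max_left _ _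
  have hB34 : (1 : ℝ) ≤ (B : ℝ) ^ (3 / 4 : ℝ) := Real.one_le_rpow hB1 (by norm_num)
  have hW1u : W1 ≤ (B : ℝ) ^ (3 / 4 : ℝ) := by
    rw [hW1]
    apply max_le hB34
    nlinarith
  have hsqAB : Real.sqrt (2 * A * B) = Real.sqrt (2 * A) * (B : ℝ) ^ (1 / 2 : ℝ) := by
    rw [Real.sqrt_mul (by positivity), Real.sqrt_eq_rpow (B : ℝ)]
  have hW2u : W2 ≤ Real.sqrt (2 * A) * (B : ℝ) ^ (5 / 4 : ℝ) := by
    have h1 : (B : ℝ) ^ (5 / 4 : ℝ) = (B : ℝ) ^ (3 / 4 : ℝ) * (B : ℝ) ^ (1 / 2 : ℝ) := by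
      rw [← Real.rpow_add hB0]; norm_num
    rw [hW2, hsqAB, h1]
    have h2 : 0 ≤ Real.sqrt (2 * A) * (B : ℝ) ^ (1 / 2 : ℝ) := by positivity
    calc W1 * (Real.sqrt (2 * A) * (B : ℝ) ^ (1 / 2 : ℝ)) ≤
        (B : ℝ) ^ (3 / 4 : ℝ) * (Real.sqrt (2 * A) * (B : ℝ) ^ (1 / 2 : ℝ)) :=
          mul_le_mul_of_nonneg_right hW1u h2
      _ = _ := by ring
  have hW20 : 0 ≤ W2 := by rw [hW2]; positivity
  have hW21 : 1 ≤ W2 := by
    have h1 : 1 ≤ Real.sqrt (2 * A * B) := Real.one_le_sqrt.2 (by nlinarith)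
    rw [hW2]
    nlinarith
  have hcover : Eb ⊆ (MM ι ⌊W2⌋₊ W1 W2).biUnion (fun m => Eb.filter (fun x =>
      (∀ j, m j ≠ 0) ∧ ∀ j, ((m j ^ 2 : ℕ) : ℤ) ∣ L u v j x.num x.den)) := by
    intro x hx
    have hx' := Finset.mem_filter.1 hx
    obtain ⟨h1, h2, h3⟩ := hEm x hx'.1
    obtain ⟨hL, ρ, hρ, hq⟩ := hf x h2
    obtain ⟨m, hm, hm0, hmd⟩ := exc_tuple g hN hD hdet hA1 hu hv x (f x) ρ hρ hL hq (B : ℝ) hB1
      (by exact_mod_cast h1) hx'.2 h3 c W1 W2 hc hW1 hW2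
    rw [Finset.mem_biUnion]
    exact ⟨m, hm, Finset.mem_filter.2 ⟨hx, hm0, hmd⟩⟩
  have hbig : (Eb.card : ℝ) ≤ ∑ m ∈ MM ι ⌊W2⌋₊ W1 W2,
      (4 * (B : ℝ) ^ 2 * R2 / (∏ j, (m j : ℝ)) ^ 2 + 2) := by
    have h1 := (Finset.card_le_card hcover).trans Finset.card_biUnion_le
    have h2 : (Eb.card : ℝ) ≤ ∑ m ∈ MM ι ⌊W2⌋₊ W1 W2, ((Eb.filter (fun x =>
        (∀ j, m j ≠ 0) ∧ ∀ j, ((m j ^ 2 : ℕ) : ℤ) ∣ L u v j x.num x.den)).card : ℝ) := by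
      exact_mod_cast h1
    refine h2.trans (Finset.sum_le_sum fun m _ => ?_)
    by_cases hm : ∀ j, m j ≠ 0
    · apply card_Sm hD hdet huv (B : ℝ) hB0 m hm
      · intro x hx
        have h3 := (hEm x (Finset.mem_filter.1 (Finset.mem_filter.1 hx).1).1).1
        exact_mod_cast h3
      · intro x hx
        exact (Finset.mem_filter.1 hx).2.2
    · have h3 : Eb.filter (fun x =>
        (∀ j, m j ≠ 0) ∧ ∀ j, ((m j ^ 2 : ℕ) : ℤ) ∣ L u v j x.num x.den) = ∅ := by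
        apply Finset.filter_eq_empty_iff.2
        intro x _ h4
        exact hm h4.1
      rw [h3]
      simp only [Finset.card_empty, Nat.cast_zero]
      positivity
  have hsum := sum_bound (ι := ι) ⌊W2⌋₊ W1 W2 (4 * (B : ℝ) ^ 2 * R2) (by linarith) hW20
    (by positivity)
  rw [hN] at hsum
  have h1 : 4 * (B : ℝ) ^ 2 * R2 / W1 ≤ 4 * R2 / c * (B : ℝ) ^ (5 / 4 : ℝ) := by
    rw [div_le_iff₀ (by linarith)]
    have h2 : c * (B : ℝ) ^ (3 / 4 : ℝ) ≤ W1 := le_max_right _ _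
    have h3 : (B : ℝ) ^ (5 / 4 : ℝ) * (B : ℝ) ^ (3 / 4 : ℝ) = (B : ℝ) ^ 2 := by
      rw [← Real.rpow_add hB0, ← Real.rpow_natCast]; norm_num
    calc 4 * (B : ℝ) ^ 2 * R2 = 4 * R2 / c * (B : ℝ) ^ (5 / 4 : ℝ) *
          (c * (B : ℝ) ^ (3 / 4 : ℝ)) := by
          rw [← h3]; field_simp
      _ ≤ 4 * R2 / c * (B : ℝ) ^ (5 / 4 : ℝ) * W1 :=
          mul_le_mul_of_nonneg_left h2 (by positivity)
  have h2 : 4 * (B : ℝ) ^ 2 * R2 / W1 + 2 * W2 ≤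
      (4 * R2 / c + 2 * Real.sqrt (2 * A)) * (B : ℝ) ^ (5 / 4 : ℝ) := by
    rw [add_mul]
    linarith
  have hfl : Real.log (⌊W2⌋₊ : ℝ) ≤ α + 5 / 4 * Real.log B := by
    have h3 : (1 : ℝ) ≤ (⌊W2⌋₊ : ℝ) := by
      have : 1 ≤ ⌊W2⌋₊ := Nat.le_floor (by simpa using hW21)
      exact_mod_cast this
    have h4 : (⌊W2⌋₊ : ℝ) ≤ Real.sqrt (2 * A) * (B : ℝ) ^ (5 / 4 : ℝ) :=
      (Nat.floor_le hW20).trans hW2u
    have h5 := Real.log_le_log (by linarith) h4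
    rwa [Real.log_mul (by positivity) (by positivity), Real.log_rpow hB0] at h5
  have hfl0 : 0 ≤ Real.log (⌊W2⌋₊ : ℝ) := Real.log_natCast_nonneg _
  have h3 : (1 + Real.log (⌊W2⌋₊ : ℝ)) ^ (2 * g + 2) ≤
      (5 / 4 + α) ^ (2 * g + 2) * (1 + Real.log B) ^ (2 * g + 2) := by
    rw [← mul_pow]
    apply pow_le_pow_left₀ (by linarith)
    have h6 : 0 ≤ α * Real.log B := mul_nonneg hα0 hlogB
    have h7 : (5 / 4 + α) * (1 + Real.log B) =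
        5 / 4 + α + 5 / 4 * Real.log B + α * Real.log B := by ring
    rw [h7]
    linarith
  have h4 : (Eb.card : ℝ) ≤ ((4 * R2 / c + 2 * Real.sqrt (2 * A)) * (B : ℝ) ^ (5 / 4 : ℝ)) *
      ((5 / 4 + α) ^ (2 * g + 2) * (1 + Real.log B) ^ (2 * g + 2)) := by
    refine (hbig.trans hsum).trans ?_
    apply mul_le_mul h2 h3 (by positivity) (by positivity)
  rw [hsplit]
  push_cast
  have h5 : 3 * (B : ℝ) ^ (5 / 4 : ℝ) ≤ 3 * (B : ℝ) ^ (5 / 4 : ℝ) *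
      (1 + Real.log B) ^ (2 * g + 2) := by
    have : 0 ≤ 3 * (B : ℝ) ^ (5 / 4 : ℝ) := by positivity
    nlinarith
  calc (Eb.card : ℝ) + Es.card ≤ _ := add_le_add h4 (hsmall.trans h5)
    _ = _ := by ring

end Pool.Agent.H845.Voj
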