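import Pool.Agent.H845.Voj.MainA
import Pool.Agent.H845.Voj.MainB
import Pool.Agent.H845.Voj.Link

/-!
# Vojta's inequality for most quadratic points of hyperelliptic curves with rational branch points

Let `C` be the smooth projective curve `y² = c ∏ (x - e_i)` over `ℚ`, where `c ≠ 0` and `e_1, …, e_n`
are distinct rational numbers and `n = 2g + 1` or `n = 2g + 2`, so that `C` has genus `g`.  Let
`k = ℚ`, `d = 2`.  A closed point `P` of `C` above a rational number `x` with `f(x) ≠ 0` has residue
field `ℚ(P) = ℚ(√f(x))` of degree at most `2`; a canonical divisor is `(g - 1) x^*(∞)`, so that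
`h_K(P) = (g - 1) log H(x) + O(1)`, where `H(a/b) = max(|a|, |b|)`.  Vojta's conjecture predicts
`(g - 1) log H(x) ≤ d(P) + ε log H(x) + O(1)` with finitely many exceptions.
-/

set_option autoImplicit false

namespace Pool.Agent.Results.MP_9b9442_nt.MostQuadraticPoints

/-- The height `H(x) = max(|a|, b)` of the rational number `x = a / b` (in lowest terms, `b > 0`). -/
def height (x : ℚ) : ℕ := max x.num.natAbs x.den

/-- The residue field of the closed points of `y² = f(x)` above a rational number `x` with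
`f(x) = q`: the subfield of `ℂ` generated over `ℚ` by the square roots of `q`. -/
noncomputable abbrev residueField (q : ℚ) : IntermediateField ℚ ℂ :=
  IntermediateField.adjoin ℚ {y : ℂ | y ^ 2 = (q : ℂ)}

instance (q : ℚ) : NumberField (residueField q) := Pool.Agent.H845.Voj.instNF q

/-- The logarithmic discriminant `d(K) = (1 / [K : ℚ]) log |D_K|` of a number field `K`. -/
noncomputable def logDisc (K : Type) [Field K] [NumberField K] : ℝ :=
  Real.log |((NumberField.discr K : ℤ) : ℝ)| / Module.finrank ℚ K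

/-- **Vojta's inequality for most quadratic points.**  Let `f(x) = c ∏ (x - e_i)` with `c ≠ 0` and
distinct rational `e_1, …, e_n`, `n = 2g + 1` or `n = 2g + 2`.  Among the rational numbers `x` of height
at most `B` with `f(x) ≠ 0`,

1. all but `O(B^{5/4} (1 + log B)^{2g+2})` satisfy `(g - 7/10) log H(x) ≤ d(P)`;
2. for every `κ ≥ 0`, all but `O(B^{1 + κ/(g+1)} (1 + log B))` satisfy `κ log H(x) < d(P)`.

(All sets in the statement are finite, since the height is bounded.) -/
theorem result (g n : ℕ) (hn : n = 2 * g + 1 ∨ n = 2 * g + 2) (c : ℚ) (hc : c ≠ 0)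
    (e : Fin n → ℚ) (he : Function.Injective e) :
    (∃ C : ℝ, ∀ B : ℕ, 1 ≤ B →
      ({x : ℚ | height x ≤ B ∧ c * ∏ i, (x - e i) ≠ 0 ∧
        ¬ (((g : ℝ) - 7 / 10) * Real.log (height x) ≤
          logDisc (residueField (c * ∏ i, (x - e i))))}.ncard : ℝ) ≤
      C * (B : ℝ) ^ (5 / 4 : ℝ) * (1 + Real.log B) ^ (2 * g + 2)) ∧
    (∀ κ : ℝ, 0 ≤ κ → ∃ C : ℝ, ∀ B : ℕ, 1 ≤ B →
      ({x : ℚ | height x ≤ B ∧ c * ∏ i, (x - e i) ≠ 0 ∧
        ¬ (κ * Real.log (height x) <
          logDisc (residueField (c * ∏ i, (x - e i))))}.ncard : ℝ) ≤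
      C * (B : ℝ) ^ (1 + κ / (g + 1)) * (1 + Real.log B)) := by
  obtain ⟨D⟩ := Pool.Agent.H845.Voj.exists_dat g n hn c hc e he
  let _ := D.fin
  let _ := D.dec
  constructor
  · obtain ⟨C, hC⟩ := Pool.Agent.H845.Voj.main_b g D.card D.hD D.hdet D.huv _ D.hf
    refine ⟨C, fun B hB => ?_⟩
    have h := hC B hB
    simp only [not_le]
    exact h
  · intro κ hκ
    obtain ⟨C, hC⟩ := Pool.Agent.H845.Voj.main_a g D.card D.hD D.hdet _ D.hf κ hκ
    refine ⟨C, fun B hB => ?_⟩
    have h := hC B hB
    simp only [not_lt]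
    exact h

end Pool.Agent.Results.MP_9b9442_nt.MostQuadraticPoints
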