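import Pool.Agent.H845.Voj.Lat

set_option autoImplicit false

namespace Pool.Agent.H845.Voj

open Module

variable {ι : Type} [Fintype ι] [DecidableEq ι]

/-- height of a rational number -/
def hgt (x : ℚ) : ℕ := max x.num.natAbs x.den

theorem hgt_pos (x : ℚ) : 1 ≤ hgt x := (Nat.one_le_iff_ne_zero.2 x.den_ne_zero).trans
  (le_max_right _ _)

/-- tuples -/
noncomputable def MM (ι : Type) [Fintype ι] [DecidableEq ι] (W : ℕ) (W1 W2 : ℝ) :
    Finset (ι → ℕ) := by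
  classical
  exact (Fintype.piFinset (fun _ : ι => Finset.Icc 1 W)).filter
    (fun m => W1 ≤ (∏ j, (m j : ℝ)) ∧ (∏ j, (m j : ℝ)) ≤ W2)

theorem harm (W : ℕ) : ∑ k ∈ Finset.Icc 1 W, ((k : ℝ))⁻¹ ≤ 1 + Real.log W := by
  have h1 := harmonic_le_one_add_log W
  rw [harmonic_eq_sum_Icc] at h1
  push_cast at h1
  exact h1

theorem sum_bound (W : ℕ) (W1 W2 K : ℝ) (hW1 : 0 < W1) (hW2 : 0 ≤ W2) (hK : 0 ≤ K) :
    ∑ m ∈ MM ι W W1 W2, (K / (∏ j, (m j : ℝ)) ^ 2 + 2) ≤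
      (K / W1 + 2 * W2) * (1 + Real.log W) ^ (Fintype.card ι) := by
  have h1 : ∀ m ∈ MM ι W W1 W2, K / (∏ j, (m j : ℝ)) ^ 2 + 2 ≤
      (K / W1 + 2 * W2) * ∏ j, ((m j : ℝ))⁻¹ := by
    intro m hm
    unfold MM at hm
    rw [Finset.mem_filter] at hm
    obtain ⟨_, h2, h3⟩ := hm
    set P := ∏ j, (m j : ℝ) with hP
    have hP0 : 0 < P := lt_of_lt_of_le hW1 h2
    rw [Finset.prod_inv_distrib, ← hP]
    have h4 : K / P ^ 2 ≤ K / W1 * P⁻¹ := by
      rw [div_mul_eq_mul_div, ← div_eq_mul_inv, div_div]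
      apply div_le_div_of_nonneg_left hK (by positivity)
      nlinarith
    have h5 : (2 : ℝ) ≤ 2 * W2 * P⁻¹ := by
      rw [mul_assoc, ← div_eq_mul_inv]
      have : 1 ≤ W2 / P := by rw [le_div_iff₀ hP0]; linarith
      linarith
    rw [add_mul]
    exact add_le_add h4 h5
  have hC : 0 ≤ K / W1 + 2 * W2 := by positivity
  calc ∑ m ∈ MM ι W W1 W2, (K / (∏ j, (m j : ℝ)) ^ 2 + 2)
      ≤ ∑ m ∈ MM ι W W1 W2, (K / W1 + 2 * W2) * ∏ j, ((m j : ℝ))⁻¹ := Finset.sum_le_sum h1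
    _ ≤ ∑ m ∈ Fintype.piFinset (fun _ : ι => Finset.Icc 1 W),
          (K / W1 + 2 * W2) * ∏ j, ((m j : ℝ))⁻¹ := by
        apply Finset.sum_le_sum_of_subset_of_nonneg
        · unfold MM
          exact Finset.filter_subset _ _
        · intro m _ _
          apply mul_nonneg hC
          exact Finset.prod_nonneg fun j _ => by positivity
    _ = (K / W1 + 2 * W2) * ∏ _j : ι, ∑ k ∈ Finset.Icc 1 W, ((k : ℝ))⁻¹ := by
        rw [← Finset.mul_sum, Finset.prod_univ_sum]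
    _ ≤ (K / W1 + 2 * W2) * (1 + Real.log W) ^ (Fintype.card ι) := by
        apply mul_le_mul_of_nonneg_left _ hC
        rw [Finset.prod_const, Finset.card_univ]
        apply pow_le_pow_left₀ (Finset.sum_nonneg fun k _ => by positivity) (harm W)

omit [Fintype ι] in
theorem greedy (m : ι → ℝ) (I : Finset ι) (Z W1 : ℝ) (hZ : ∀ j ∈ I, m j ≤ Z)
    (hm : ∀ j ∈ I, 1 ≤ m j) (hZ1 : 1 ≤ Z) (hW : 1 ≤ W1) (hP : W1 ≤ ∏ j ∈ I, m j) :
    ∃ J ⊆ I, W1 ≤ ∏ j ∈ J, m j ∧ ∏ j ∈ J, m j ≤ W1 * Z := by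
  induction I using Finset.induction_on with
  | empty =>
    refine ⟨∅, subset_rfl, hP, ?_⟩
    rw [Finset.prod_empty]
    nlinarith
  | insert k I hk ih =>
    by_cases h : W1 ≤ ∏ j ∈ I, m j
    · obtain ⟨J, hJ, h1, h2⟩ := ih (fun j hj => hZ j (Finset.mem_insert_of_mem hj))
        (fun j hj => hm j (Finset.mem_insert_of_mem hj)) h
      exact ⟨J, hJ.trans (Finset.subset_insert _ _), h1, h2⟩
    · refine ⟨insert k I, subset_rfl, hP, ?_⟩
      rw [Finset.prod_insert hk, mul_comm]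
      have h1 := hZ k (Finset.mem_insert_self _ _)
      have h2 := hm k (Finset.mem_insert_self _ _)
      exact mul_le_mul (not_le.1 h).le h1 (by linarith) (by linarith)

theorem dt_ne {x y : ℚ} (h : x ≠ y) : dt x y ≠ 0 := by
  intro h1
  apply h
  rw [Rat.eq_iff_mul_eq_mul]
  unfold dt at h1
  linarith

theorem cop (x : ℚ) : IsCoprime x.num (x.den : ℤ) := by
  rw [Int.isCoprime_iff_gcd_eq_one]
  have := x.reduced
  unfold Int.gcd
  simpa using this

/-- points with given square divisors -/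
theorem card_Sm {D0 : ℤ} {u v : ι → ℤ} (hD : D0 ≠ 0) (hdet : ∀ i j, i ≠ j → det u v i j ≠ 0)
    (huv : ∀ j, |u j| + |v j| ≠ 0) (B : ℝ) (hB : 0 < B) (m : ι → ℕ) (hm : ∀ j, m j ≠ 0)
    (S : Finset ℚ) (hSB : ∀ x ∈ S, (hgt x : ℝ) ≤ B)
    (hS : ∀ x ∈ S, ∀ j, ((m j ^ 2 : ℕ) : ℤ) ∣ L u v j x.num x.den) :
    (S.card : ℝ) ≤ (4 * B ^ 2 * ((RR D0 u v * ∏ j, (|u j| + |v j|).natAbs : ℕ) : ℝ) ^
      (Fintype.card ι ^ 2)) / (∏ j, (m j : ℝ)) ^ 2 + 2 := by
  set R := RR D0 u v * ∏ j, (|u j| + |v j|).natAbs with hR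
  have hR0 : R ≠ 0 := mul_ne_zero (RR_ne hD hdet)
    (Finset.prod_ne_zero_iff.2 fun j _ => Int.natAbs_ne_zero.2 (huv j))
  set N := Fintype.card ι with hN
  rcases S.eq_empty_or_nonempty with hS0 | ⟨x0, hx0⟩
  · rw [hS0]
    simp only [Finset.card_empty, Nat.cast_zero]
    positivity
  · have hgcd : ∀ i j, i ≠ j → Nat.gcd (m i ^ 2) (m j ^ 2) ∣ R := by
      intro i j hij
      have h1 : ((Nat.gcd (m i ^ 2) (m j ^ 2) : ℕ) : ℤ) ∣ det u v i j := by
        apply dvd_det (cop x0)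
        · exact (Int.natCast_dvd_natCast.2 (Nat.gcd_dvd_left _ _)).trans (hS x0 hx0 i)
        · exact (Int.natCast_dvd_natCast.2 (Nat.gcd_dvd_right _ _)).trans (hS x0 hx0 j)
      exact ((Int.natCast_dvd.1 h1).trans (det_dvd_RR D0 u v i j hij)).trans (Dvd.intro _ rfl)
    have hP0 : (0 : ℝ) < ∏ j, (m j : ℝ) := Finset.prod_pos fun j _ => by
      exact_mod_cast Nat.pos_of_ne_zero (hm j)
    have hR0' : (0 : ℝ) < R := by exact_mod_cast Nat.pos_of_ne_zero hR0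
    have hD0 : 0 < (∏ j, (m j : ℝ)) ^ 2 / (R : ℝ) ^ (N ^ 2) := by positivity
    have h1 := card_slopes S B ((∏ j, (m j : ℝ)) ^ 2 / (R : ℝ) ^ (N ^ 2)) hB hD0 (by
      intro x hx
      have h2 := hSB x hx
      constructor
      · exact le_trans (by exact_mod_cast le_max_left _ _) h2
      · exact le_trans (by exact_mod_cast le_max_right _ _) h2) (by
      intro x hx y hy hxy
      have h2 := prod_dvd (fun j => m j ^ 2) (dt x y).natAbs R hgcd (by
        intro j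
        have h3 := two_pts (hS x hx j) (hS y hy j)
        have h4 := Int.natCast_dvd.1 h3
        rw [Int.natAbs_mul] at h4
        refine h4.trans (mul_dvd_mul_right ?_ _)
        exact (Finset.dvd_prod_of_mem (fun j => (|u j| + |v j|).natAbs)
          (Finset.mem_univ j)).trans (Dvd.intro_left _ rfl)) Finset.univ
      have h3 : 0 < R ^ ((Finset.univ : Finset ι).card ^ 2) * (dt x y).natAbs := by
        apply Nat.mul_pos (pow_pos (Nat.pos_of_ne_zero hR0) _)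
        exact Int.natAbs_pos.2 (dt_ne hxy)
      have h4 := Nat.le_of_dvd h3 h2
      rw [Finset.card_univ, ← hN] at h4
      have h5 : (∏ j, (m j : ℝ)) ^ 2 ≤ (R : ℝ) ^ (N ^ 2) * ((dt x y).natAbs : ℝ) := by
        have h6 : ((∏ j, m j ^ 2 : ℕ) : ℝ) ≤ ((R ^ (N ^ 2) * (dt x y).natAbs : ℕ) : ℝ) := by
          exact_mod_cast h4
        push_cast at h6
        rw [Finset.prod_pow] at h6
        push_cast
        exact h6
      rw [div_le_iff₀ (by positivity)]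
      linarith)
    refine h1.trans (le_of_eq ?_)
    congr 1
    field_simp

end Pool.Agent.H845.Voj
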